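import Pool.Agent.AMB.StepTp

/-!
# The additive machine: reserved set and matching with tests
-/

set_option autoImplicit false
set_option linter.unusedSectionVars false
set_option linter.unusedVariables false

namespace Pool.Agent.AMB

open Finset Pool.Agent.MP9a04dc

/-- The nibble theorem with exponentially many tests. -/
def NTStatement : Prop :=
  ∀ (r : ℕ) (W d : ℝ), 0 < W → 0 < d → ∃ κ : ℝ, 0 < κ ∧ ∃ c : ℝ, 0 < c ∧ ∃ n₀ : ℕ,
    ∀ (E V J : Type) [Fintype E] [DecidableEq E] [Fintype V] [DecidableEq V] [Fintype J]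
      (vs : E → Finset V) (x : E → ℝ) (f : J → E → ℝ), Good vs x κ r →
      n₀ ≤ Fintype.card V → (∀ j e, 0 ≤ f j e) → (∀ j e, f j e ≤ W) →
      (Fintype.card J : ℝ) ≤ Real.exp (c * Fintype.card V) →
      ∃ M : Finset E, (∀ e ∈ M, 0 < x e) ∧
        (∀ e ∈ M, ∀ f ∈ M, e ≠ f → Disjoint (vs e) (vs f)) ∧
        ∀ j, ∑ e, f j e * x e - d * Fintype.card V ≤ ∑ e ∈ M, f j e

/-- **AM+**: reserved set `T` and a matching `M` avoiding `T`, all tests are good. -/
theorem amPlus (hNT : NTStatement) (r : ℕ) {C γ d : ℝ} (hC : 0 < C) (hγ : 0 < γ) (hd : 0 < d) :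
    ∃ κ : ℝ, 0 < κ ∧ ∃ c : ℝ, 0 < c ∧ ∃ n₀ : ℕ,
      ∀ (E V J : Type) [Fintype E] [DecidableEq E] [Fintype V] [DecidableEq V] [Fintype J]
        (vs : E → Finset V) (x : E → ℝ) (Om : Finset V) (A : J → Finset E)
        (P : J → E → Finset V), AMPlus vs x Om A P r C γ κ →
        (Fintype.card J : ℝ) ≤ Real.exp (c * Fintype.card V) → n₀ ≤ Fintype.card V →
        ∃ T ⊆ Om, ∃ M : Finset E, (∀ e ∈ M, 0 < x e) ∧
          (∀ e ∈ M, ∀ f ∈ M, e ≠ f → Disjoint (vs e) (vs f)) ∧
          (∀ e ∈ M, Disjoint (vs e) T) ∧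
          ∑ e, x e - d * (Fintype.card V : ℝ) ≤ (M.card : ℝ) ∧
          ∀ j, (min γ (1 / 2)) ^ 4 * (∑ e ∈ A j, x e) - d * (Fintype.card V : ℝ)
            ≤ (((M ∩ A j).filter (fun e => P j e ⊆ T)).card : ℝ) := by
  classical
  obtain ⟨Ct, hCt1, hT⟩ := stepT' r (C := C) (γ := γ) hC hγ
  obtain ⟨κ₁, hκ₁, c₁, hc₁, n₁, hN⟩ := hNT r 1 (d / 2) one_pos (by positivity)
  obtain ⟨κ₀, hκ₀, c₀, hc₀, n₀, hT⟩ := hT (d / 2) (by positivity)
  have hCt0 : 0 < Ct := by linarith
  set κ : ℝ := min κ₀ (κ₁ / Ct) with hκ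
  have hκpos : 0 < κ := lt_min hκ₀ (by positivity)
  set c : ℝ := min c₀ (c₁ / 2) with hc
  have hcpos : 0 < c := lt_min hc₀ (by positivity)
  obtain ⟨n₂, hn₂⟩ := exists_nat_gt (2 / c₁)
  refine ⟨κ, hκpos, c, hcpos, max (max n₀ n₁) n₂, ?_⟩
  intro E V J _ _ _ _ _ vs x Om A P hdat hJ hn
  have hnn₀ : n₀ ≤ Fintype.card V := (le_max_left _ _).trans ((le_max_left _ _).trans hn)
  have hnn₁ : n₁ ≤ Fintype.card V := (le_max_right _ _).trans ((le_max_left _ _).trans hn)
  have hnn₂ : n₂ ≤ Fintype.card V := (le_max_right _ _).trans hn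
  set n : ℝ := (Fintype.card V : ℝ) with hndef
  have hn0 : 0 ≤ n := Nat.cast_nonneg _
  have hJ0 : (Fintype.card J : ℝ) ≤ Real.exp (c₀ * n) :=
    hJ.trans (Real.exp_le_exp.2 (mul_le_mul_of_nonneg_right (min_le_left _ _) hn0))
  obtain ⟨T, hTOm, z, hz, hzx, hzT, hsum, htest⟩ :=
    hT E V J vs x Om A P κ hκpos.le (min_le_left _ _) hdat hJ0 hnn₀
  have hz' : Good vs z κ₁ r := by
    refine ⟨hz.nonneg, hz.deg_le, fun u v huv => (hz.codeg_le u v huv).trans ?_, hz.card_le,
      hz.nonempty⟩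
    calc Ct * κ ≤ Ct * (κ₁ / Ct) := mul_le_mul_of_nonneg_left (min_le_right _ _) hCt0.le
      _ = κ₁ := by field_simp
  have hJ1 : (Fintype.card (Option J) : ℝ) ≤ Real.exp (c₁ * n) := by
    rw [Fintype.card_option]
    push_cast
    have h1 : (Fintype.card J : ℝ) ≤ Real.exp (c₁ * n / 2) := by
      refine hJ.trans (Real.exp_le_exp.2 ?_)
      have := mul_le_mul_of_nonneg_right (min_le_right c₀ (c₁ / 2)) hn0
      rw [← hc] at this
      linarith
    have h2 : 2 ≤ Real.exp (c₁ * n / 2) := by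
      have h3 : (2 : ℝ) / c₁ < n := hn₂.trans_le (by rw [hndef]; exact_mod_cast hnn₂)
      rw [div_lt_iff₀ hc₁] at h3
      have h4 := Real.add_one_le_exp (c₁ * n / 2)
      linarith
    have h3 : Real.exp (c₁ * n) = Real.exp (c₁ * n / 2) * Real.exp (c₁ * n / 2) := by
      rw [← Real.exp_add]; congr 1; ring
    rw [h3]
    nlinarith
  obtain ⟨M, hM0, hMd, hMt⟩ := hN E V (Option J) vs z
    (fun o e => match o with
      | none => 1
      | some j => if e ∈ A j ∧ P j e ⊆ T then 1 else 0) hz' hnn₁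
    (by
      intro o e
      cases o with
      | none => simp
      | some j => simp only; split_ifs <;> norm_num)
    (by
      intro o e
      cases o with
      | none => simp
      | some j => simp only; split_ifs <;> norm_num) hJ1
  refine ⟨T, hTOm, M, ?_, hMd, ?_, ?_, ?_⟩
  · intro e he
    have h1 := hM0 e he
    have h2 := hzx e
    have h3 : 0 < Ct * x e := h1.trans_le h2
    exact (mul_pos_iff_of_pos_left hCt0).1 h3
  · intro e he
    exact hzT e (hM0 e he).ne'
  · have h1 := hMt none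
    simp only [one_mul, sum_const, nsmul_eq_mul, mul_one] at h1
    linarith
  · intro j
    have h1 := hMt (some j)
    simp only at h1
    have h2 : ∑ e, (if e ∈ A j ∧ P j e ⊆ T then (1 : ℝ) else 0) * z e
        = ∑ e ∈ (A j).filter (fun e => P j e ⊆ T), z e := by
      rw [sum_filter, ← Finset.sum_subset (subset_univ (A j))]
      · refine sum_congr rfl fun e he => ?_
        by_cases h : P j e ⊆ T <;> simp [he, h]
      · intro e _ he
        simp [he]
    have h3 : ∑ e ∈ M, (if e ∈ A j ∧ P j e ⊆ T then (1 : ℝ) else 0)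
        = (((M ∩ A j).filter (fun e => P j e ⊆ T)).card : ℝ) := by
      rw [← sum_filter, sum_const, nsmul_eq_mul, mul_one]
      congr 2
      ext e
      simp only [mem_filter, mem_inter]
      tauto
    rw [h2, h3] at h1
    have h4 := htest j
    linarith

end Pool.Agent.AMB
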