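import Pool.Agent.AMB.McD
import Pool.Agent.MP9a04dc.Bern

/-!
# Bernstein type inequality for functions of a random subset

`ex q F` is the expectation of `F` for the random subset of `E` in which every `e` is independently
left out with probability `q e` (see `MP9a04dc.Bern`).
-/

set_option autoImplicit false

namespace Pool.Agent.AMB

open Finset
open Pool.Agent.MP9a04dc (ex wt ex_mono ex_const ex_mul ex_add ex_sub ex_sum)

section Gen

variable {ι : Type*} [Fintype ι] [DecidableEq ι] {Ω : ι → Type*} [∀ i, Fintype (Ω i)]
  {w : ∀ i, Ω i → ℝ}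

/-- the induction of `mgf_aux` with an abstract bound for one coordinate -/
theorem mgf_gen (hw0 : ∀ i a, 0 ≤ w i a) (hw1 : ∀ i, ∑ a, w i a = 1) (f : (∀ i, Ω i) → ℝ)
    (c K : ι → ℝ) (hf : ∀ x i a, |f (Function.update x i a) - f x| ≤ c i) (l : ℝ)
    (hK : ∀ j (h : Ω j → ℝ), (∀ a b, |h a - h b| ≤ c j) →
      ∑ a, w j a * Real.exp (l * h a) ≤ Real.exp (l * (∑ a, w j a * h a) + K j))
    (s : Finset ι) :
    ∀ x, pE w (fun y => Real.exp (l * f (s.piecewise y x))) ≤
      Real.exp (l * pE w (fun y => f (s.piecewise y x)) + ∑ i ∈ s, K i) := by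
  induction s using Finset.induction_on with
  | empty =>
    intro x
    simp only [piecewise_empty, sum_empty, add_zero]
    rw [pE_const hw1, pE_const hw1]
  | insert j s hj ih =>
    intro x
    have hpw : ∀ y : (∀ i, Ω i), (insert j s).piecewise y x =
        s.piecewise y (Function.update x j (y j)) := by
      intro y
      funext i
      by_cases hi : i = j
      · subst hi
        simp [hj]
      · by_cases his : i ∈ s
        · simp [his]
        · simp [hi, his]
    have hind : ∀ (a : Ω j) (y : ∀ i, Ω i) (b : Ω j),
        s.piecewise (Function.update y j b) (Function.update x j a) =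
          s.piecewise y (Function.update x j a) := by
      intro a y b
      funext i
      by_cases his : i ∈ s
      · have hij : i ≠ j := fun h => hj (h ▸ his)
        simp [his, hij]
      · simp [his]
    have e1 : pE w (fun y => Real.exp (l * f ((insert j s).piecewise y x))) =
        ∑ a, w j a * pE w (fun y => Real.exp (l * f (s.piecewise y (Function.update x j a)))) := by
      have := pE_coord hw1 j
        (fun a y => Real.exp (l * f (s.piecewise y (Function.update x j a))))
        (fun a y b => by rw [hind a y b])
      rw [← this]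
      simp only [hpw]
    have e2 : pE w (fun y => f ((insert j s).piecewise y x)) =
        ∑ a, w j a * pE w (fun y => f (s.piecewise y (Function.update x j a))) := by
      have := pE_coord hw1 j (fun a y => f (s.piecewise y (Function.update x j a)))
        (fun a y b => by rw [hind a y b])
      rw [← this]
      simp only [hpw]
    set h : Ω j → ℝ := fun a => pE w (fun y => f (s.piecewise y (Function.update x j a))) with hh
    have hdiff : ∀ a b, |h a - h b| ≤ c j := by
      intro a b
      have e3 : h a - h b = pE w (fun y => f (s.piecewise y (Function.update x j a)) -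
          f (s.piecewise y (Function.update x j b))) := by
        rw [pE_sub]
      have e4 : ∀ (y : ∀ i, Ω i) (a : Ω j), s.piecewise y (Function.update x j a) =
          Function.update (s.piecewise y x) j a := by
        intro y a
        funext i
        by_cases hi : i = j
        · subst hi
          simp [hj]
        · by_cases his : i ∈ s
          · simp [his, hi]
          · simp [hi, his]
      rw [e3, abs_le]
      constructor
      · rw [← pE_const hw1 (-c j)]
        refine pE_mono hw0 fun y => ?_
        rw [e4, e4]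
        exact (abs_le.1 (diff_update hf _ j a b)).1
      · rw [← pE_const hw1 (c j)]
        refine pE_mono hw0 fun y => ?_
        rw [e4, e4]
        exact (abs_le.1 (diff_update hf _ j a b)).2
    have e5 := hK j h hdiff
    rw [e1, e2, sum_insert hj]
    calc ∑ a, w j a * pE w (fun y => Real.exp (l * f (s.piecewise y (Function.update x j a))))
        ≤ ∑ a, w j a * (Real.exp (l * h a) * Real.exp (∑ i ∈ s, K i)) := by
          refine sum_le_sum fun a _ => mul_le_mul_of_nonneg_left ?_ (hw0 j a)
          rw [← Real.exp_add]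
          exact ih (Function.update x j a)
      _ = (∑ a, w j a * Real.exp (l * h a)) * Real.exp (∑ i ∈ s, K i) := by
          rw [sum_mul]
          exact sum_congr rfl fun a _ => by ring
      _ ≤ Real.exp (l * (∑ a, w j a * h a) + K j) * Real.exp (∑ i ∈ s, K i) :=
          mul_le_mul_of_nonneg_right e5 (Real.exp_pos _).le
      _ = _ := by
          rw [← Real.exp_add]
          congr 1
          ring

end Gen

/-- one Bernoulli coordinate -/
theorem bern_one (p : ℝ) (hp : 0 ≤ p) {a : ℝ} (ha : |a| ≤ 1) :
    1 + p * (Real.exp a - 1) ≤ Real.exp (p * a + p * a ^ 2) := by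
  have h1 := Real.abs_exp_sub_one_sub_id_le ha
  have h2 : Real.exp a - 1 ≤ a + a ^ 2 := by
    have := (abs_le.1 h1).2
    linarith
  have h3 := mul_le_mul_of_nonneg_left h2 hp
  have h4 := Real.add_one_le_exp (p * a + p * a ^ 2)
  have h5 : p * (a + a ^ 2) = p * a + p * a ^ 2 := by ring
  linarith

section Ex

variable {E : Type*} [Fintype E] [DecidableEq E]

/-- the weights on `Bool` -/
noncomputable def bw (q : E → ℝ) (e : E) (b : Bool) : ℝ := if b then 1 - q e else q e

/-- the subset coded by a Boolean function -/
def bs (x : E → Bool) : Finset E := univ.filter fun e => x e = true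

omit [DecidableEq E] in
theorem mem_bs {x : E → Bool} {e : E} : e ∈ bs x ↔ x e = true := by simp [bs]

/-- subsets and Boolean functions -/
def bsEquiv : (E → Bool) ≃ Finset E where
  toFun := bs
  invFun R e := decide (e ∈ R)
  left_inv x := by
    funext e
    simp [mem_bs]
  right_inv R := by
    ext e
    simp [mem_bs]

theorem ex_eq_pE (q : E → ℝ) (F : Finset E → ℝ) : ex q F = pE (bw q) (fun x => F (bs x)) := by
  unfold ex pE
  rw [← Equiv.sum_comp bsEquiv]
  refine sum_congr rfl fun x _ => ?_
  change wt q (bs x) * F (bs x) = _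
  congr 1
  unfold wt
  have h1 : univ \ bs x = univ.filter fun e => ¬ x e = true := by
    ext e
    simp [mem_bs]
  rw [h1]
  unfold bs bw
  rw [prod_ite]

/-- moment generating function -/
theorem ex_mgf {q : E → ℝ} (h0 : ∀ e, 0 ≤ q e) (h1 : ∀ e, q e ≤ 1) (F : Finset E → ℝ) {c : ℝ}
    (hF : ∀ R, ∀ e ∉ R, |F (insert e R) - F R| ≤ c) {l : ℝ} (hl : |l| * c ≤ 1) :
    ex q (fun R => Real.exp (l * F R)) ≤
      Real.exp (l * ex q F + l ^ 2 * c ^ 2 * ∑ e, (1 - q e)) := by
  classical
  rw [ex_eq_pE, ex_eq_pE]
  have hw0 : ∀ i a, 0 ≤ bw q i a := by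
    intro i a
    unfold bw
    split_ifs
    · have := h1 i
      linarith
    · exact h0 i
  have hw1 : ∀ i, ∑ a, bw q i a = 1 := by
    intro i
    simp [bw]
  have hc : ∀ (x : E → Bool) (i : E) (a : Bool),
      |F (bs (Function.update x i a)) - F (bs x)| ≤ c := by
    intro x i a
    by_cases hxa : a = x i
    · subst hxa
      rw [Function.update_eq_self, sub_self, abs_zero]
      by_cases hi : i ∈ bs x
      · have := hF ((bs x).erase i) i (notMem_erase i _)
        exact (abs_nonneg _).trans this
      · exact (abs_nonneg _).trans (hF (bs x) i hi)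
    · cases ha : a with
      | true =>
        have hxi : x i = false := by
          cases h : x i with
          | true => exact absurd (ha.trans h.symm) hxa
          | false => rfl
        have e1 : bs (Function.update x i true) = insert i (bs x) := by
          ext e
          rw [mem_insert, mem_bs, mem_bs]
          by_cases he : e = i
          · subst he
            simp
          · simp [he]
        rw [e1]
        exact hF _ i (by rw [mem_bs, hxi]; simp)
      | false =>
        have hxi : x i = true := by
          cases h : x i with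
          | true => rfl
          | false => exact absurd (ha.trans h.symm) hxa
        have e1 : bs (Function.update x i false) = (bs x).erase i := by
          ext e
          rw [mem_erase, mem_bs, mem_bs]
          by_cases he : e = i
          · subst he
            simp
          · simp [he]
        rw [e1]
        have := hF ((bs x).erase i) i (notMem_erase i _)
        rw [insert_erase (by rw [mem_bs, hxi])] at this
        rwa [abs_sub_comm]
  have hK : ∀ (j : E) (h : Bool → ℝ), (∀ a b, |h a - h b| ≤ c) →
      ∑ a, bw q j a * Real.exp (l * h a) ≤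
        Real.exp (l * (∑ a, bw q j a * h a) + l ^ 2 * c ^ 2 * (1 - q j)) := by
    intro j h hh
    have hp : 0 ≤ 1 - q j := by
      have := h1 j
      linarith
    have hab := hh true false
    have ha : |l * (h true - h false)| ≤ 1 := by
      rw [abs_mul]
      exact (mul_le_mul_of_nonneg_left hab (abs_nonneg l)).trans hl
    have h2 := bern_one (1 - q j) hp ha
    have h3 : ∑ a, bw q j a * Real.exp (l * h a) =
        Real.exp (l * h false) * (1 + (1 - q j) * (Real.exp (l * (h true - h false)) - 1)) := by
      have h4 : Real.exp (l * h true) =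
          Real.exp (l * h false) * Real.exp (l * (h true - h false)) := by
        rw [← Real.exp_add]
        congr 1
        ring
      simp only [Fintype.sum_bool, bw, if_true, if_false, Bool.false_eq_true]
      rw [h4]
      ring
    rw [h3]
    refine (mul_le_mul_of_nonneg_left h2 (Real.exp_pos _).le).trans ?_
    rw [← Real.exp_add]
    refine Real.exp_le_exp.2 ?_
    simp only [Fintype.sum_bool, bw, if_true, if_false, Bool.false_eq_true]
    have h5 : (h true - h false) ^ 2 ≤ c ^ 2 := by
      rw [← sq_abs]
      exact pow_le_pow_left₀ (abs_nonneg _) hab 2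
    have h6 : 0 ≤ l ^ 2 * (1 - q j) := mul_nonneg (sq_nonneg l) hp
    have h7 := mul_le_mul_of_nonneg_left h5 h6
    nlinarith [h7]
  have h2 := mgf_gen hw0 hw1 (fun x => F (bs x)) (fun _ => c)
    (fun e => l ^ 2 * c ^ 2 * (1 - q e)) hc l hK univ (fun _ => true)
  simp only [piecewise_univ] at h2
  rw [← mul_sum] at h2
  exact h2

open Classical in
/-- lower tail -/
theorem ex_lower {q : E → ℝ} (h0 : ∀ e, 0 ≤ q e) (h1 : ∀ e, q e ≤ 1) (F : Finset E → ℝ) {c : ℝ}
    (hF : ∀ R, ∀ e ∉ R, |F (insert e R) - F R| ≤ c) {l t N : ℝ} (hl0 : 0 ≤ l) (hl : l * c ≤ 1)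
    (hN : ∑ e, (1 - q e) ≤ N) :
    ex q (fun R => if F R ≤ ex q F - t then 1 else 0) ≤
      Real.exp (-(l * t) + l ^ 2 * c ^ 2 * N) := by
  have h2 := ex_mgf h0 h1 F hF (l := -l) (by rwa [abs_neg, abs_of_nonneg hl0])
  have h3 : ex q (fun R => if F R ≤ ex q F - t then 1 else 0) ≤
      ex q (fun R => Real.exp (l * (ex q F - t)) * Real.exp (-l * F R)) := by
    refine ex_mono h0 h1 fun R => ?_
    rw [← Real.exp_add]
    split_ifs with hR
    · rw [Real.one_le_exp_iff]
      have := mul_le_mul_of_nonneg_left hR hl0
      linarith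
    · exact (Real.exp_pos _).le
  refine h3.trans ?_
  rw [ex_mul]
  refine (mul_le_mul_of_nonneg_left h2 (Real.exp_pos _).le).trans ?_
  rw [← Real.exp_add]
  refine Real.exp_le_exp.2 ?_
  have h4 : (-l) ^ 2 * c ^ 2 * ∑ e, (1 - q e) ≤ l ^ 2 * c ^ 2 * N := by
    rw [neg_sq]
    exact mul_le_mul_of_nonneg_left hN (by positivity)
  linarith

open Classical in
/-- upper tail -/
theorem ex_upper {q : E → ℝ} (h0 : ∀ e, 0 ≤ q e) (h1 : ∀ e, q e ≤ 1) (F : Finset E → ℝ) {c : ℝ}
    (hF : ∀ R, ∀ e ∉ R, |F (insert e R) - F R| ≤ c) {l t N : ℝ} (hl0 : 0 ≤ l) (hl : l * c ≤ 1)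
    (hN : ∑ e, (1 - q e) ≤ N) :
    ex q (fun R => if ex q F + t ≤ F R then 1 else 0) ≤
      Real.exp (-(l * t) + l ^ 2 * c ^ 2 * N) := by
  have h2 := ex_mgf h0 h1 F hF (l := l) (by rwa [abs_of_nonneg hl0])
  have h3 : ex q (fun R => if ex q F + t ≤ F R then 1 else 0) ≤
      ex q (fun R => Real.exp (-(l * (ex q F + t))) * Real.exp (l * F R)) := by
    refine ex_mono h0 h1 fun R => ?_
    rw [← Real.exp_add]
    split_ifs with hR
    · rw [Real.one_le_exp_iff]
      have := mul_le_mul_of_nonneg_left hR hl0
      linarith
    · exact (Real.exp_pos _).le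
  refine h3.trans ?_
  rw [ex_mul]
  refine (mul_le_mul_of_nonneg_left h2 (Real.exp_pos _).le).trans ?_
  rw [← Real.exp_add]
  refine Real.exp_le_exp.2 ?_
  have h4 : l ^ 2 * c ^ 2 * ∑ e, (1 - q e) ≤ l ^ 2 * c ^ 2 * N :=
    mul_le_mul_of_nonneg_left hN (by positivity)
  linarith

/-- a point at which `F` is at most its expectation -/
theorem exists_le_ex {q : E → ℝ} (h0 : ∀ e, 0 ≤ q e) (h1 : ∀ e, q e ≤ 1) (F : Finset E → ℝ) :
    ∃ R, F R ≤ ex q F := by
  obtain ⟨R, hR⟩ := Pool.Agent.MP9a04dc.exists_ge_ex h0 h1 (fun R => (-1) * F R)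
  rw [ex_mul] at hR
  exact ⟨R, by linarith⟩

end Ex

end Pool.Agent.AMB
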