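import Pool.Agent.MP9a04dc.Bern

/-!
# A concentration inequality for product Bernoulli weights
-/

set_option autoImplicit false
set_option linter.unusedSectionVars false
set_option linter.unusedVariables false

namespace Pool.Agent.AMB

open Finset Pool.Agent.MP9a04dc

section Conc

variable {E : Type*} [Fintype E] [DecidableEq E]

/-- averaging over one coordinate -/
noncomputable def avg (q : E → ℝ) (e : E) (F : Finset E → ℝ) (R : Finset E) : ℝ :=
  q e * F (R.erase e) + (1 - q e) * F (insert e R)

lemma sum_split (e : E) (G : Finset E → ℝ) :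
    ∑ R, G R = ∑ R ∈ (univ.erase e).powerset, (G R + G (insert e R)) := by
  rw [sum_add_distrib, ← sum_powerset_insert (notMem_erase e univ), insert_erase (mem_univ e),
    powerset_univ]

lemma ex_avg (q : E → ℝ) (e : E) (F : Finset E → ℝ) : ex q (avg q e F) = ex q F := by
  unfold ex
  rw [sum_split e, sum_split e]
  refine sum_congr rfl fun R hR => ?_
  have heR : e ∉ R := fun h => (mem_erase.1 (mem_powerset.1 hR h)).1 rfl
  have h1 : wt q R = q e * ((∏ f ∈ R, (1 - q f)) * ∏ f ∈ (univ.erase e) \ R, q f) := by
    unfold wt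
    have : (univ : Finset E) \ R = insert e ((univ.erase e) \ R) := by
      ext f
      simp only [mem_sdiff, mem_univ, true_and, mem_insert, mem_erase]
      by_cases hf : f = e
      · subst hf; simp [heR]
      · simp [hf]
    rw [this, prod_insert (by simp)]
    ring
  have h2 : wt q (insert e R) = (1 - q e) * ((∏ f ∈ R, (1 - q f)) * ∏ f ∈ (univ.erase e) \ R, q f) := by
    unfold wt
    have : (univ : Finset E) \ (insert e R) = (univ.erase e) \ R := by
      ext f
      simp only [mem_sdiff, mem_univ, true_and, mem_insert, mem_erase]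
      tauto
    rw [this, prod_insert heR]
    ring
  rw [h1, h2]
  unfold avg
  rw [erase_eq_of_notMem heR, erase_insert heR, insert_idem]
  ring

lemma exp_le_quad {x : ℝ} (hx : |x| ≤ 1) : Real.exp x ≤ 1 + x + x ^ 2 := by
  have := Real.abs_exp_sub_one_sub_id_le hx
  have h2 := le_abs_self (Real.exp x - 1 - x)
  linarith

lemma two_point {q a b c lam : ℝ} (h0 : 0 ≤ q) (h1 : q ≤ 1) (hab : |b - a| ≤ c)
    (hlam : |lam| * c ≤ 1) :
    q * Real.exp (lam * a) + (1 - q) * Real.exp (lam * b)
      ≤ Real.exp (lam * (q * a + (1 - q) * b) + lam ^ 2 * ((1 - q) * c ^ 2)) := by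
  set m := q * a + (1 - q) * b with hm
  have hc : 0 ≤ c := (abs_nonneg _).trans hab
  have hsq : (b - a) ^ 2 ≤ c ^ 2 := by
    rw [← sq_abs (b - a)]
    exact pow_le_pow_left₀ (abs_nonneg _) hab 2
  have hl : |lam| * |b - a| ≤ 1 := (mul_le_mul_of_nonneg_left hab (abs_nonneg _)).trans hlam
  have ha : |lam * (a - m)| ≤ 1 := by
    have : a - m = -((1 - q) * (b - a)) := by rw [hm]; ring
    rw [this, mul_neg, abs_neg, abs_mul, abs_mul, abs_of_nonneg (by linarith : 0 ≤ 1 - q)]
    have := mul_nonneg (abs_nonneg lam) (abs_nonneg (b - a))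
    nlinarith
  have hb : |lam * (b - m)| ≤ 1 := by
    have : b - m = q * (b - a) := by rw [hm]; ring
    rw [this, abs_mul, abs_mul, abs_of_nonneg h0]
    have := mul_nonneg (abs_nonneg lam) (abs_nonneg (b - a))
    nlinarith
  have h2 := exp_le_quad ha
  have h3 := exp_le_quad hb
  have h4 : q * Real.exp (lam * a) + (1 - q) * Real.exp (lam * b)
      = Real.exp (lam * m) * (q * Real.exp (lam * (a - m)) + (1 - q) * Real.exp (lam * (b - m))) := by
    rw [show lam * (a - m) = lam * a - lam * m by ring, show lam * (b - m) = lam * b - lam * m by ring,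
      Real.exp_sub, Real.exp_sub]
    have := (Real.exp_pos (lam * m)).ne'
    field_simp
  rw [h4, Real.exp_add]
  refine mul_le_mul_of_nonneg_left ?_ (Real.exp_pos _).le
  have h5 : q * Real.exp (lam * (a - m)) + (1 - q) * Real.exp (lam * (b - m))
      ≤ 1 + lam ^ 2 * (q * (1 - q) * (b - a) ^ 2) := by
    have h6 := mul_le_mul_of_nonneg_left h2 h0
    have h7 := mul_le_mul_of_nonneg_left h3 (by linarith : 0 ≤ 1 - q)
    refine (add_le_add h6 h7).trans (le_of_eq ?_)
    rw [hm]
    ring
  have h8 : lam ^ 2 * (q * (1 - q) * (b - a) ^ 2) ≤ lam ^ 2 * ((1 - q) * c ^ 2) := by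
    refine mul_le_mul_of_nonneg_left ?_ (sq_nonneg _)
    have h9 : 0 ≤ 1 - q := by linarith
    have h10 : q * (1 - q) * (b - a) ^ 2 ≤ 1 * (1 - q) * c ^ 2 := by
      refine mul_le_mul (mul_le_mul_of_nonneg_right h1 h9) hsq (sq_nonneg _) (by linarith)
    linarith
  have h11 := Real.add_one_le_exp (lam ^ 2 * ((1 - q) * c ^ 2))
  linarith

lemma ex_exp_le_aux {q : E → ℝ} (h0 : ∀ e, 0 ≤ q e) (h1 : ∀ e, q e ≤ 1) {c : E → ℝ} {lam : ℝ}
    (hlam : ∀ e, |lam| * c e ≤ 1) (S : Finset E) :
    ∀ F : Finset E → ℝ, (∀ R, F (R ∩ S) = F R) →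
      (∀ R e, |F (insert e R) - F (R.erase e)| ≤ c e) →
      ex q (fun R => Real.exp (lam * F R))
        ≤ Real.exp (lam * ex q F + lam ^ 2 * ∑ e ∈ S, (1 - q e) * c e ^ 2) := by
  induction S using Finset.induction_on with
  | empty =>
    intro F hF _
    have h2 : ∀ R, F R = F ∅ := fun R => by rw [← hF R, inter_empty]
    have h3 : ex q F = F ∅ := by
      rw [show F = fun _ => F ∅ from funext h2]
      exact ex_const _ _
    rw [h3]
    have h4 : (fun R => Real.exp (lam * F R)) = fun _ => Real.exp (lam * F ∅) := by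
      funext R; rw [h2 R]
    rw [h4, ex_const]
    simp
  | insert e S heS ih =>
    intro F hF hc
    have hF' : ∀ R, avg q e F (R ∩ S) = avg q e F R := by
      intro R
      unfold avg
      have e1 : (R ∩ S).erase e ∩ insert e S = R.erase e ∩ insert e S := by
        ext f; simp only [mem_inter, mem_erase, mem_insert]; tauto
      have e2 : insert e (R ∩ S) ∩ insert e S = insert e R ∩ insert e S := by
        ext f; simp only [mem_inter, mem_insert]; tauto
      rw [← hF ((R ∩ S).erase e), e1, hF, ← hF (insert e (R ∩ S)), e2, hF]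
    have hce : ∀ f, 0 ≤ c f := fun f => (abs_nonneg _).trans (hc ∅ f)
    have hc' : ∀ R f, |avg q e F (insert f R) - avg q e F (R.erase f)| ≤ c f := by
      intro R f
      unfold avg
      by_cases hfe : f = e
      · subst hfe
        have h2 : (insert f R).erase f = (R.erase f).erase f := by
          ext g; simp only [mem_erase, mem_insert]; tauto
        have h3 : insert f (insert f R) = insert f (R.erase f) := by
          ext g; simp only [mem_erase, mem_insert]; tauto
        rw [h2, h3]
        simpa using hce f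
      · have h2 : (insert f R).erase e = insert f (R.erase e) := by
          ext g; simp only [mem_erase, mem_insert]
          constructor
          · tauto
          · rintro (h | h)
            · subst h; tauto
            · tauto
        have h3 : (R.erase f).erase e = (R.erase e).erase f := by
          ext g; simp only [mem_erase]; tauto
        have h4 : insert e (insert f R) = insert f (insert e R) := by
          ext g; simp only [mem_insert]; tauto
        have h5 : insert e (R.erase f) = (insert e R).erase f := by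
          ext g; simp only [mem_erase, mem_insert]
          constructor
          · rintro (h | h)
            · subst h; exact ⟨fun h => hfe h.symm, Or.inl rfl⟩
            · tauto
          · tauto
        rw [h2, h3, h4, h5]
        have h6 := hc (R.erase e) f
        have h7 := hc (insert e R) f
        have h8 : q e * F (insert f (R.erase e)) + (1 - q e) * F (insert f (insert e R))
            - (q e * F ((R.erase e).erase f) + (1 - q e) * F ((insert e R).erase f))
            = q e * (F (insert f (R.erase e)) - F ((R.erase e).erase f))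
              + (1 - q e) * (F (insert f (insert e R)) - F ((insert e R).erase f)) := by ring
        rw [h8]
        have hq0 := h0 e
        have hq1 := h1 e
        calc _ ≤ |q e * (F (insert f (R.erase e)) - F ((R.erase e).erase f))|
              + |(1 - q e) * (F (insert f (insert e R)) - F ((insert e R).erase f))| := abs_add_le _ _
          _ = q e * |F (insert f (R.erase e)) - F ((R.erase e).erase f)|
              + (1 - q e) * |F (insert f (insert e R)) - F ((insert e R).erase f)| := by
                rw [abs_mul, abs_mul, abs_of_nonneg hq0, abs_of_nonneg (by linarith : 0 ≤ 1 - q e)]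
          _ ≤ q e * c f + (1 - q e) * c f :=
                add_le_add (mul_le_mul_of_nonneg_left h6 hq0)
                  (mul_le_mul_of_nonneg_left h7 (by linarith))
          _ = c f := by ring
    have h2 := ih (avg q e F) hF' hc'
    rw [ex_avg] at h2
    rw [← ex_avg q e (fun R => Real.exp (lam * F R))]
    have h3 : ∀ R, avg q e (fun R => Real.exp (lam * F R)) R
        ≤ Real.exp (lam ^ 2 * ((1 - q e) * c e ^ 2)) * Real.exp (lam * avg q e F R) := by
      intro R
      rw [← Real.exp_add, add_comm]
      have hR := hc R e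
      exact two_point (h0 e) (h1 e) hR (hlam e)
    refine (ex_mono h0 h1 h3).trans ?_
    rw [ex_mul]
    refine (mul_le_mul_of_nonneg_left h2 (Real.exp_pos _).le).trans (le_of_eq ?_)
    rw [← Real.exp_add, sum_insert heS]
    congr 1
    ring

/-- Exponential moment of a function with bounded differences. -/
lemma ex_exp_le {q : E → ℝ} (h0 : ∀ e, 0 ≤ q e) (h1 : ∀ e, q e ≤ 1) {c : E → ℝ} {lam : ℝ}
    (hlam : ∀ e, |lam| * c e ≤ 1) (F : Finset E → ℝ)
    (hc : ∀ R e, |F (insert e R) - F (R.erase e)| ≤ c e) :
    ex q (fun R => Real.exp (lam * F R))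
      ≤ Real.exp (lam * ex q F + lam ^ 2 * ∑ e, (1 - q e) * c e ^ 2) :=
  ex_exp_le_aux h0 h1 hlam univ F (fun R => by rw [inter_univ]) hc

/-- Lower tail of a function with bounded differences. -/
lemma lower_tail {q : E → ℝ} (h0 : ∀ e, 0 ≤ q e) (h1 : ∀ e, q e ≤ 1) {c : E → ℝ} {lam : ℝ}
    (hlam0 : 0 ≤ lam) (hlam : ∀ e, lam * c e ≤ 1) (F : Finset E → ℝ)
    (hc : ∀ R e, |F (insert e R) - F (R.erase e)| ≤ c e) {W : ℝ}
    (hW : ∑ e, (1 - q e) * c e ^ 2 ≤ W) (m t : ℝ) (hm : m ≤ ex q F) :
    ex q (fun R => if F R ≤ m - t then 1 else 0) ≤ Real.exp (-(lam * t) + lam ^ 2 * W) := by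
  have h2 : ∀ R, (if F R ≤ m - t then (1 : ℝ) else 0)
      ≤ Real.exp (lam * (m - t)) * Real.exp ((-lam) * F R) := by
    intro R
    rw [← Real.exp_add]
    split_ifs with h
    · apply Real.one_le_exp
      nlinarith
    · exact (Real.exp_pos _).le
  refine (ex_mono h0 h1 h2).trans ?_
  rw [ex_mul]
  have h3 := ex_exp_le h0 h1 (c := c) (lam := -lam) (fun e => by
    rw [abs_neg, abs_of_nonneg hlam0]; exact hlam e) F hc
  refine (mul_le_mul_of_nonneg_left h3 (Real.exp_pos _).le).trans ?_
  rw [← Real.exp_add]
  apply Real.exp_le_exp.2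
  have h4 : lam * m ≤ lam * ex q F := mul_le_mul_of_nonneg_left hm hlam0
  have h5 : lam ^ 2 * ∑ e, (1 - q e) * c e ^ 2 ≤ lam ^ 2 * W :=
    mul_le_mul_of_nonneg_left hW (sq_nonneg _)
  nlinarith

end Conc

end Pool.Agent.AMB
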