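import Pool.Agent.AMB.NT
import Pool.Agent.AMB.AMP

/-!
# The machine, unconditional
-/

set_option autoImplicit false

namespace Pool.Agent.AMB

open Finset Pool.Agent.MP9a04dc

theorem ntStatement : NTStatement := by
  intro r W d hW hd
  obtain ⟨κ, hκ, c, hc, n₀, H⟩ := nibble_tests r (max 1 W) d (le_max_left _ _) hd
  refine ⟨κ, hκ, c, hc, n₀, ?_⟩
  intro E V J _ _ _ _ _ vs x f hG hV hf0 hfW hJ
  exact H E V J vs x f hG hf0 (fun j e => (hfW j e).trans (le_max_right _ _)) hV hJ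

/-- **The machine.** -/
theorem machine (r : ℕ) {C γ d : ℝ} (hC : 0 < C) (hγ : 0 < γ) (hd : 0 < d) :
    ∃ κ : ℝ, 0 < κ ∧ ∃ c : ℝ, 0 < c ∧ ∃ n₀ : ℕ,
      ∀ (E V J : Type) [Fintype E] [DecidableEq E] [Fintype V] [DecidableEq V] [Fintype J]
        (vs : E → Finset V) (x : E → ℝ) (Om : Finset V) (A : J → Finset E)
        (P : J → E → Finset V), AMPlus vs x Om A P r C γ κ →
        (Fintype.card J : ℝ) ≤ Real.exp (c * Fintype.card V) → n₀ ≤ Fintype.card V →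
        ∃ T ⊆ Om, ∃ M : Finset E, (∀ e ∈ M, 0 < x e) ∧
          (∀ e ∈ M, ∀ f ∈ M, e ≠ f → Disjoint (vs e) (vs f)) ∧
          (∀ e ∈ M, Disjoint (vs e) T) ∧
          ∑ e, x e - d * (Fintype.card V : ℝ) ≤ (M.card : ℝ) ∧
          ∀ j, (min γ (1 / 2)) ^ 4 * (∑ e ∈ A j, x e) - d * (Fintype.card V : ℝ)
            ≤ (((M ∩ A j).filter (fun e => P j e ⊆ T)).card : ℝ) :=
  amPlus ntStatement r hC hγ hd

end Pool.Agent.AMB
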