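import Mathlib

/-!
# Bounded differences inequality for finite products of finite probability spaces

`pE w f` is the expectation of `f` on the product `∀ i, Ω i` with the weights `w i` on `Ω i`.
* `mcdiarmid_mgf`: moment generating function;
* `mcdiarmid_upper`, `mcdiarmid_lower`, `mcdiarmid_abs`: tails `exp (-t² / (2 C))`, `C ≥ ∑ c_i²`;
* `mcdiarmid_exists`: a point of positive weight at which finitely many functions are close to their
  expectations.
-/

set_option autoImplicit false

namespace Pool.Agent.AMB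

open Finset

/-! ## Expectations -/

section PE

variable {ι : Type*} [Fintype ι] [DecidableEq ι] {Ω : ι → Type*} [∀ i, Fintype (Ω i)]

/-- expectation of `f` for the product of the weights `w i` -/
noncomputable def pE (w : ∀ i, Ω i → ℝ) (f : (∀ i, Ω i) → ℝ) : ℝ :=
  ∑ x : (∀ i, Ω i), (∏ i, w i (x i)) * f x

variable {w : ∀ i, Ω i → ℝ}

theorem sum_prod_weights (hw1 : ∀ i, ∑ a, w i a = 1) :
    ∑ x : (∀ i, Ω i), ∏ i, w i (x i) = 1 := by
  rw [← Fintype.prod_sum fun i a => w i a]
  simp [hw1]

theorem pE_const (hw1 : ∀ i, ∑ a, w i a = 1) (c : ℝ) : pE w (fun _ => c) = c := by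
  unfold pE
  rw [← sum_mul, sum_prod_weights hw1, one_mul]

theorem pE_add (f g : (∀ i, Ω i) → ℝ) : pE w (fun x => f x + g x) = pE w f + pE w g := by
  unfold pE
  rw [← sum_add_distrib]
  exact sum_congr rfl fun x _ => by ring

theorem pE_sub (f g : (∀ i, Ω i) → ℝ) : pE w (fun x => f x - g x) = pE w f - pE w g := by
  unfold pE
  rw [← sum_sub_distrib]
  exact sum_congr rfl fun x _ => by ring

theorem pE_mul_left (c : ℝ) (f : (∀ i, Ω i) → ℝ) : pE w (fun x => c * f x) = c * pE w f := by
  unfold pE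
  rw [mul_sum]
  exact sum_congr rfl fun x _ => by ring

theorem pE_neg (f : (∀ i, Ω i) → ℝ) : pE w (fun x => -f x) = -pE w f := by
  unfold pE
  rw [← sum_neg_distrib]
  exact sum_congr rfl fun x _ => by ring

theorem pE_sum {κ : Type*} (s : Finset κ) (f : κ → (∀ i, Ω i) → ℝ) :
    pE w (fun x => ∑ k ∈ s, f k x) = ∑ k ∈ s, pE w (f k) := by
  unfold pE
  rw [sum_comm]
  exact sum_congr rfl fun x _ => by rw [mul_sum]

theorem pE_mono (hw0 : ∀ i a, 0 ≤ w i a) {f g : (∀ i, Ω i) → ℝ} (h : ∀ x, f x ≤ g x) :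
    pE w f ≤ pE w g :=
  sum_le_sum fun x _ => mul_le_mul_of_nonneg_left (h x) (prod_nonneg fun i _ => hw0 i _)

theorem pE_nonneg (hw0 : ∀ i a, 0 ≤ w i a) {f : (∀ i, Ω i) → ℝ} (h : ∀ x, 0 ≤ f x) :
    0 ≤ pE w f :=
  sum_nonneg fun x _ => mul_nonneg (prod_nonneg fun i _ => hw0 i _) (h x)

/-- a point of positive weight at which `f` is at least (at most) its expectation -/
theorem exists_pos_of_pE_pos (hw0 : ∀ i a, 0 ≤ w i a) {f : (∀ i, Ω i) → ℝ} (h : 0 < pE w f) :
    ∃ x, (∀ i, 0 < w i (x i)) ∧ 0 < f x := by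
  by_contra hcon
  push Not at hcon
  refine absurd h (not_lt.2 ?_)
  refine sum_nonpos fun x _ => ?_
  by_cases hx : ∀ i, 0 < w i (x i)
  · exact mul_nonpos_of_nonneg_of_nonpos (prod_nonneg fun i _ => hw0 i _) (hcon x hx)
  · push Not at hx
    obtain ⟨i, hi⟩ := hx
    have : w i (x i) = 0 := le_antisymm hi (hw0 i _)
    rw [prod_eq_zero (mem_univ i) this, zero_mul]

/-- Fubini for one coordinate. -/
theorem pE_coord (hw1 : ∀ i, ∑ a, w i a = 1) (j : ι) (G : Ω j → (∀ i, Ω i) → ℝ)
    (hG : ∀ a y b, G a (Function.update y j b) = G a y) :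
    pE w (fun y => G (y j) y) = ∑ a, w j a * pE w (G a) := by
  classical
  have hsplit : ∀ F : (∀ i, Ω i) → ℝ, ∑ x, (∏ i, w i (x i)) * F x =
      ∑ p : Ω j × (∀ i : {i // i ≠ j}, Ω i), (w j p.1 * ∏ i : {i // i ≠ j}, w i (p.2 i)) *
        F ((Equiv.piSplitAt j Ω).symm p) := by
    intro F
    rw [← Equiv.sum_comp (Equiv.piSplitAt j Ω).symm]
    refine sum_congr rfl fun p _ => ?_
    congr 1
    rw [Fintype.prod_eq_mul_prod_subtype_ne _ j]
    congr 1
    · simp
    · refine prod_congr rfl fun i _ => ?_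
      have := i.2
      simp [this]
  have hval : ∀ (a b : Ω j) (z : ∀ i : {i // i ≠ j}, Ω i),
      G a ((Equiv.piSplitAt j Ω).symm (b, z)) = G a ((Equiv.piSplitAt j Ω).symm (a, z)) := by
    intro a b z
    have : (Equiv.piSplitAt j Ω).symm (b, z) =
        Function.update ((Equiv.piSplitAt j Ω).symm (a, z)) j b := by
      funext i
      by_cases hi : i = j
      · subst hi
        simp
      · rw [Function.update_of_ne hi]
        simp [hi]
    rw [this, hG]
  unfold pE
  rw [hsplit, Fintype.sum_prod_type]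
  refine sum_congr rfl fun a _ => ?_
  rw [hsplit, Fintype.sum_prod_type]
  have h1 : ∀ b : Ω j, ∑ z : (∀ i : {i // i ≠ j}, Ω i), (w j b * ∏ i : {i // i ≠ j}, w i (z i)) *
      G a ((Equiv.piSplitAt j Ω).symm (b, z)) =
      w j b * ∑ z : (∀ i : {i // i ≠ j}, Ω i), (∏ i : {i // i ≠ j}, w i (z i)) *
        G a ((Equiv.piSplitAt j Ω).symm (a, z)) := by
    intro b
    rw [mul_sum]
    refine sum_congr rfl fun z _ => ?_
    rw [hval a b z]
    ring
  simp only [h1]
  rw [← sum_mul, hw1, one_mul, mul_sum]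
  refine sum_congr rfl fun z _ => ?_
  have : ((Equiv.piSplitAt j Ω).symm (a, z)) j = a := by simp
  rw [this]
  ring

end PE

/-! ## One coordinate -/

/-- one step of the moment generating function bound -/
theorem one_step {α : Type*} [Fintype α] (v : α → ℝ) (hv0 : ∀ a, 0 ≤ v a) (hv1 : ∑ a, v a = 1)
    (h : α → ℝ) (c l : ℝ) (hh : ∀ a b, |h a - h b| ≤ c) :
    ∑ a, v a * Real.exp (l * h a) ≤ Real.exp (l * (∑ a, v a * h a) + l ^ 2 * c ^ 2 / 2) := by
  have h1 : ∀ a, Real.exp (l * (h a - ∑ b, v b * h b)) ≤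
      ∑ b, v b * Real.exp (l * (h a - h b)) := by
    intro a
    have h2 := convexOn_exp.map_sum_le (t := univ) (w := v)
      (p := fun b => l * (h a - h b)) (fun b _ => hv0 b) hv1 (fun _ _ => Set.mem_univ _)
    simp only [smul_eq_mul] at h2
    refine le_trans (le_of_eq ?_) h2
    congr 1
    have : ∑ b, v b * (l * (h a - h b)) = l * (h a * ∑ b, v b - ∑ b, v b * h b) := by
      rw [mul_sum, ← sum_sub_distrib, mul_sum]
      exact sum_congr rfl fun b _ => by ring
    rw [this, hv1, mul_one]
  set S := ∑ a, ∑ b, v a * v b * Real.exp (l * (h a - h b)) with hS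
  have h3 : 2 * S ≤ 2 * Real.exp (l ^ 2 * c ^ 2 / 2) := by
    have h4 : S = ∑ a, ∑ b, v a * v b * Real.exp (l * (h b - h a)) := by
      rw [hS, sum_comm]
      exact sum_congr rfl fun a _ => sum_congr rfl fun b _ => by ring
    have h5 : 2 * S = ∑ a, ∑ b, v a * v b * (2 * Real.cosh (l * (h a - h b))) := by
      rw [two_mul]
      nth_rewrite 2 [h4]
      rw [hS, ← sum_add_distrib]
      refine sum_congr rfl fun a _ => ?_
      rw [← sum_add_distrib]
      refine sum_congr rfl fun b _ => ?_
      rw [Real.cosh_eq]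
      have : l * (h b - h a) = -(l * (h a - h b)) := by ring
      rw [this]
      ring
    rw [h5]
    have h6 : ∀ a b, v a * v b * (2 * Real.cosh (l * (h a - h b))) ≤
        v a * v b * (2 * Real.exp (l ^ 2 * c ^ 2 / 2)) := by
      intro a b
      refine mul_le_mul_of_nonneg_left ?_ (mul_nonneg (hv0 a) (hv0 b))
      refine mul_le_mul_of_nonneg_left ((Real.cosh_le_exp_half_sq _).trans ?_) (by norm_num)
      refine Real.exp_le_exp.2 ?_
      have h7 : (h a - h b) ^ 2 ≤ c ^ 2 := by
        rw [← sq_abs]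
        exact pow_le_pow_left₀ (abs_nonneg _) (hh a b) 2
      have h8 : (l * (h a - h b)) ^ 2 ≤ l ^ 2 * c ^ 2 := by
        rw [mul_pow]
        exact mul_le_mul_of_nonneg_left h7 (sq_nonneg l)
      linarith
    calc _ ≤ ∑ a, ∑ b, v a * v b * (2 * Real.exp (l ^ 2 * c ^ 2 / 2)) :=
          sum_le_sum fun a _ => sum_le_sum fun b _ => h6 a b
      _ = (∑ a, v a) * (∑ b, v b) * (2 * Real.exp (l ^ 2 * c ^ 2 / 2)) := by
          rw [sum_mul_sum, sum_mul]
          refine sum_congr rfl fun a _ => ?_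
          rw [sum_mul]
      _ = _ := by rw [hv1]; ring
  have h9 : ∑ a, v a * Real.exp (l * (h a - ∑ b, v b * h b)) ≤ Real.exp (l ^ 2 * c ^ 2 / 2) := by
    calc _ ≤ ∑ a, v a * ∑ b, v b * Real.exp (l * (h a - h b)) :=
          sum_le_sum fun a _ => mul_le_mul_of_nonneg_left (h1 a) (hv0 a)
      _ = S := by
          rw [hS]
          refine sum_congr rfl fun a _ => ?_
          rw [mul_sum]
          exact sum_congr rfl fun b _ => by ring
      _ ≤ _ := by linarith
  have h10 : ∑ a, v a * Real.exp (l * h a) = Real.exp (l * (∑ b, v b * h b)) *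
      ∑ a, v a * Real.exp (l * (h a - ∑ b, v b * h b)) := by
    rw [mul_sum]
    refine sum_congr rfl fun a _ => ?_
    have : Real.exp (l * h a) = Real.exp (l * (∑ b, v b * h b)) *
        Real.exp (l * (h a - ∑ b, v b * h b)) := by
      rw [← Real.exp_add]
      congr 1
      ring
    rw [this]
    ring
  rw [h10, Real.exp_add]
  exact mul_le_mul_of_nonneg_left h9 (Real.exp_pos _).le

/-! ## The inequality -/

section Main

variable {ι : Type*} [Fintype ι] [DecidableEq ι] {Ω : ι → Type*} [∀ i, Fintype (Ω i)]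
  {w : ∀ i, Ω i → ℝ}

omit [Fintype ι] [∀ i, Fintype (Ω i)] in
theorem diff_update {f : (∀ i, Ω i) → ℝ} {c : ι → ℝ}
    (hf : ∀ x i a, |f (Function.update x i a) - f x| ≤ c i) (x : ∀ i, Ω i) (i : ι) (a b : Ω i) :
    |f (Function.update x i a) - f (Function.update x i b)| ≤ c i := by
  have h := hf (Function.update x i b) i a
  rwa [Function.update_idem] at h

/-- the induction: the coordinates in `s` are averaged -/
theorem mgf_aux (hw0 : ∀ i a, 0 ≤ w i a) (hw1 : ∀ i, ∑ a, w i a = 1) (f : (∀ i, Ω i) → ℝ)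
    (c : ι → ℝ) (hf : ∀ x i a, |f (Function.update x i a) - f x| ≤ c i) (l : ℝ) (s : Finset ι) :
    ∀ x, pE w (fun y => Real.exp (l * f (s.piecewise y x))) ≤
      Real.exp (l * pE w (fun y => f (s.piecewise y x)) + l ^ 2 * (∑ i ∈ s, c i ^ 2) / 2) := by
  induction s using Finset.induction_on with
  | empty =>
    intro x
    simp only [piecewise_empty, sum_empty, mul_zero, zero_div, add_zero]
    rw [pE_const hw1, pE_const hw1]
  | insert j s hj ih =>
    intro x
    -- the averaged coordinate `j`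
    have hpw : ∀ y : (∀ i, Ω i), (insert j s).piecewise y x =
        s.piecewise y (Function.update x j (y j)) := by
      intro y
      funext i
      by_cases hi : i = j
      · subst hi
        simp [hj]
      · by_cases his : i ∈ s
        · simp [his]
        · simp [hi, his]
    have hind : ∀ (a : Ω j) (y : ∀ i, Ω i) (b : Ω j),
        s.piecewise (Function.update y j b) (Function.update x j a) =
          s.piecewise y (Function.update x j a) := by
      intro a y b
      funext i
      by_cases his : i ∈ s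
      · have hij : i ≠ j := fun h => hj (h ▸ his)
        simp [his, hij]
      · simp [his]
    have e1 : pE w (fun y => Real.exp (l * f ((insert j s).piecewise y x))) =
        ∑ a, w j a * pE w (fun y => Real.exp (l * f (s.piecewise y (Function.update x j a)))) := by
      have := pE_coord hw1 j
        (fun a y => Real.exp (l * f (s.piecewise y (Function.update x j a))))
        (fun a y b => by rw [hind a y b])
      rw [← this]
      simp only [hpw]
    have e2 : pE w (fun y => f ((insert j s).piecewise y x)) =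
        ∑ a, w j a * pE w (fun y => f (s.piecewise y (Function.update x j a))) := by
      have := pE_coord hw1 j (fun a y => f (s.piecewise y (Function.update x j a)))
        (fun a y b => by rw [hind a y b])
      rw [← this]
      simp only [hpw]
    set h : Ω j → ℝ := fun a => pE w (fun y => f (s.piecewise y (Function.update x j a))) with hh
    have hdiff : ∀ a b, |h a - h b| ≤ c j := by
      intro a b
      have e3 : h a - h b = pE w (fun y => f (s.piecewise y (Function.update x j a)) -
          f (s.piecewise y (Function.update x j b))) := by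
        rw [pE_sub]
      have e4 : ∀ (y : ∀ i, Ω i) (a : Ω j), s.piecewise y (Function.update x j a) =
          Function.update (s.piecewise y x) j a := by
        intro y a
        funext i
        by_cases hi : i = j
        · subst hi
          simp [hj]
        · by_cases his : i ∈ s
          · simp [his, hi]
          · simp [hi, his]
      rw [e3, abs_le]
      constructor
      · rw [← pE_const hw1 (-c j)]
        refine pE_mono hw0 fun y => ?_
        rw [e4, e4]
        exact (abs_le.1 (diff_update hf _ j a b)).1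
      · rw [← pE_const hw1 (c j)]
        refine pE_mono hw0 fun y => ?_
        rw [e4, e4]
        exact (abs_le.1 (diff_update hf _ j a b)).2
    have e5 := one_step (w j) (hw0 j) (hw1 j) h (c j) l hdiff
    rw [e1, e2, sum_insert hj]
    calc ∑ a, w j a * pE w (fun y => Real.exp (l * f (s.piecewise y (Function.update x j a))))
        ≤ ∑ a, w j a * (Real.exp (l * h a) * Real.exp (l ^ 2 * (∑ i ∈ s, c i ^ 2) / 2)) := by
          refine sum_le_sum fun a _ => mul_le_mul_of_nonneg_left ?_ (hw0 j a)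
          rw [← Real.exp_add]
          exact ih (Function.update x j a)
      _ = (∑ a, w j a * Real.exp (l * h a)) * Real.exp (l ^ 2 * (∑ i ∈ s, c i ^ 2) / 2) := by
          rw [sum_mul]
          exact sum_congr rfl fun a _ => by ring
      _ ≤ Real.exp (l * (∑ a, w j a * h a) + l ^ 2 * c j ^ 2 / 2) *
            Real.exp (l ^ 2 * (∑ i ∈ s, c i ^ 2) / 2) :=
          mul_le_mul_of_nonneg_right e5 (Real.exp_pos _).le
      _ = _ := by
          rw [← Real.exp_add]
          congr 1
          ring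

/-- Moment generating function bound. -/
theorem mcdiarmid_mgf (hw0 : ∀ i a, 0 ≤ w i a) (hw1 : ∀ i, ∑ a, w i a = 1)
    (f : (∀ i, Ω i) → ℝ) (c : ι → ℝ) (hf : ∀ x i a, |f (Function.update x i a) - f x| ≤ c i)
    (l : ℝ) :
    pE w (fun x => Real.exp (l * (f x - pE w f))) ≤ Real.exp (l ^ 2 * (∑ i, c i ^ 2) / 2) := by
  classical
  by_cases hne : Nonempty (∀ i, Ω i)
  · obtain ⟨x0⟩ := hne
    have h := mgf_aux hw0 hw1 f c hf l univ x0
    simp only [piecewise_univ] at h
    have e : pE w (fun x => Real.exp (l * (f x - pE w f))) =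
        Real.exp (-(l * pE w f)) * pE w (fun x => Real.exp (l * f x)) := by
      rw [← pE_mul_left]
      congr 1
      funext x
      rw [← Real.exp_add]
      congr 1
      ring
    rw [e]
    calc _ ≤ Real.exp (-(l * pE w f)) *
          Real.exp (l * pE w (fun y => f y) + l ^ 2 * (∑ i, c i ^ 2) / 2) :=
          mul_le_mul_of_nonneg_left h (Real.exp_pos _).le
      _ = _ := by
          rw [← Real.exp_add]
          congr 1
          ring
  · have : IsEmpty (∀ i, Ω i) := not_nonempty_iff.1 hne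
    unfold pE
    rw [Finset.univ_eq_empty, sum_empty]
    exact (Real.exp_pos _).le

open Classical in
/-- Upper tail. -/
theorem mcdiarmid_upper (hw0 : ∀ i a, 0 ≤ w i a) (hw1 : ∀ i, ∑ a, w i a = 1)
    (f : (∀ i, Ω i) → ℝ) (c : ι → ℝ) (hf : ∀ x i a, |f (Function.update x i a) - f x| ≤ c i)
    {C t : ℝ} (hC : 0 < C) (hc : ∑ i, c i ^ 2 ≤ C) (ht : 0 ≤ t) :
    pE w (fun x => if t ≤ f x - pE w f then 1 else 0) ≤ Real.exp (-t ^ 2 / (2 * C)) := by
  have h := mcdiarmid_mgf hw0 hw1 f c hf (t / C)
  have h1 : pE w (fun x => if t ≤ f x - pE w f then 1 else 0) ≤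
      Real.exp (-(t / C * t)) * pE w (fun x => Real.exp (t / C * (f x - pE w f))) := by
    rw [← pE_mul_left]
    refine pE_mono hw0 fun x => ?_
    have htC : 0 ≤ t / C := div_nonneg ht hC.le
    split_ifs with hx
    · rw [← Real.exp_add, Real.one_le_exp_iff]
      have := mul_le_mul_of_nonneg_left hx htC
      linarith
    · positivity
  refine h1.trans ?_
  calc _ ≤ Real.exp (-(t / C * t)) * Real.exp ((t / C) ^ 2 * (∑ i, c i ^ 2) / 2) :=
        mul_le_mul_of_nonneg_left h (Real.exp_pos _).le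
    _ ≤ Real.exp (-(t / C * t)) * Real.exp ((t / C) ^ 2 * C / 2) := by
        refine mul_le_mul_of_nonneg_left (Real.exp_le_exp.2 ?_) (Real.exp_pos _).le
        have := mul_le_mul_of_nonneg_left hc (sq_nonneg (t / C))
        linarith
    _ = Real.exp (-t ^ 2 / (2 * C)) := by
        rw [← Real.exp_add]
        congr 1
        field_simp
        ring

open Classical in
/-- Lower tail. -/
theorem mcdiarmid_lower (hw0 : ∀ i a, 0 ≤ w i a) (hw1 : ∀ i, ∑ a, w i a = 1)
    (f : (∀ i, Ω i) → ℝ) (c : ι → ℝ) (hf : ∀ x i a, |f (Function.update x i a) - f x| ≤ c i)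
    {C t : ℝ} (hC : 0 < C) (hc : ∑ i, c i ^ 2 ≤ C) (ht : 0 ≤ t) :
    pE w (fun x => if t ≤ pE w f - f x then 1 else 0) ≤ Real.exp (-t ^ 2 / (2 * C)) := by
  have h := mcdiarmid_upper hw0 hw1 (fun x => -f x) c (fun x i a => by
    rw [← abs_neg]
    have : -(-f (Function.update x i a) - -f x) = f (Function.update x i a) - f x := by ring
    rw [this]
    exact hf x i a) hC hc ht
  rw [pE_neg] at h
  refine le_trans (le_of_eq ?_) h
  congr 1
  funext x
  have : -f x - -pE w f = pE w f - f x := by ring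
  rw [this]

open Classical in
/-- Two-sided tail. -/
theorem mcdiarmid_abs (hw0 : ∀ i a, 0 ≤ w i a) (hw1 : ∀ i, ∑ a, w i a = 1)
    (f : (∀ i, Ω i) → ℝ) (c : ι → ℝ) (hf : ∀ x i a, |f (Function.update x i a) - f x| ≤ c i)
    {C t : ℝ} (hC : 0 < C) (hc : ∑ i, c i ^ 2 ≤ C) (ht : 0 ≤ t) :
    pE w (fun x => if t ≤ |f x - pE w f| then 1 else 0) ≤ 2 * Real.exp (-t ^ 2 / (2 * C)) := by
  have h1 := mcdiarmid_upper hw0 hw1 f c hf hC hc ht
  have h2 := mcdiarmid_lower hw0 hw1 f c hf hC hc ht
  have h3 : pE w (fun x => if t ≤ |f x - pE w f| then 1 else 0) ≤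
      pE w (fun x => (if t ≤ f x - pE w f then 1 else 0) +
        (if t ≤ pE w f - f x then 1 else 0)) := by
    refine pE_mono hw0 fun x => ?_
    have n1 : (0 : ℝ) ≤ if t ≤ f x - pE w f then 1 else 0 := by split_ifs <;> norm_num
    have n2 : (0 : ℝ) ≤ if t ≤ pE w f - f x then 1 else 0 := by split_ifs <;> norm_num
    by_cases hx : t ≤ |f x - pE w f|
    · rw [if_pos hx]
      rcases le_abs.1 hx with h | h
      · rw [if_pos h]
        linarith
      · have h' : t ≤ pE w f - f x := by linarith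
        rw [if_pos h']
        linarith
    · rw [if_neg hx]
      exact add_nonneg n1 n2
  rw [pE_add] at h3
  linarith

/-- **Existence**: finitely many functions are simultaneously close to their expectations. -/
theorem mcdiarmid_exists (hw0 : ∀ i a, 0 ≤ w i a) (hw1 : ∀ i, ∑ a, w i a = 1)
    {κ : Type*} (K : Finset κ) (f : κ → (∀ i, Ω i) → ℝ) (c : ι → ℝ)
    (hf : ∀ k ∈ K, ∀ x i a, |f k (Function.update x i a) - f k x| ≤ c i)
    {C t : ℝ} (hC : 0 < C) (hc : ∑ i, c i ^ 2 ≤ C) (ht : 0 ≤ t)
    (hK : 2 * (K.card : ℝ) * Real.exp (-t ^ 2 / (2 * C)) < 1) :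
    ∃ x, (∀ i, 0 < w i (x i)) ∧ ∀ k ∈ K, |f k x - pE w (f k)| < t := by
  classical
  set g : (∀ i, Ω i) → ℝ := fun x => 1 - ∑ k ∈ K, if t ≤ |f k x - pE w (f k)| then 1 else 0
    with hg
  have h1 : 0 < pE w g := by
    rw [hg, pE_sub, pE_const hw1, pE_sum]
    have : ∑ k ∈ K, pE w (fun x => if t ≤ |f k x - pE w (f k)| then 1 else 0) ≤
        ∑ _k ∈ K, 2 * Real.exp (-t ^ 2 / (2 * C)) :=
      sum_le_sum fun k hk => mcdiarmid_abs hw0 hw1 (f k) c (hf k hk) hC hc ht
    rw [sum_const, nsmul_eq_mul] at this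
    linarith
  obtain ⟨x, hx, hgx⟩ := exists_pos_of_pE_pos hw0 h1
  refine ⟨x, hx, fun k hk => ?_⟩
  by_contra hcon
  rw [not_lt] at hcon
  have h2 : (1 : ℝ) ≤ ∑ k ∈ K, if t ≤ |f k x - pE w (f k)| then 1 else 0 := by
    calc (1 : ℝ) = if t ≤ |f k x - pE w (f k)| then 1 else 0 := by rw [if_pos hcon]
      _ ≤ _ := single_le_sum (f := fun k => if t ≤ |f k x - pE w (f k)| then (1 : ℝ) else 0)
          (fun k _ => by split_ifs <;> norm_num) hk
  rw [hg] at hgx
  simp only at hgx
  linarith

end Main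

end Pool.Agent.AMB
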