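import Pool.Agent.AMB.NTa

/-!
# The nibble with tests

`nibble_tests`: a fractional matching `x` with small codegrees contains (in its support) a matching
`M` with `∑_{e ∈ M} f e ≥ ∑ x f - δ |V|` simultaneously for `exp (c |V|)` test functions `f`.
-/

set_option autoImplicit false
set_option linter.unusedSectionVars false

namespace Pool.Agent.AMB

open Finset
open Pool.Agent.MP9a04dc

section Iter

variable {E V : Type*} [Fintype E] [DecidableEq E] [Fintype V] [DecidableEq V]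
  {vs : E → Finset V} {κ : ℝ} {r : ℕ}

theorem tests_iter {θ : ℝ} (hθ : 0 ≤ θ) (hθ1 : θ ≤ 1) (hκ : 0 ≤ κ) (hκ1 : (r : ℝ) ^ 2 * κ ≤ 1)
    {J : Type*} [Fintype J] {f : J → E → ℝ} {F : ℝ} (hF : 1 ≤ F)
    (hf0 : ∀ j e, 0 ≤ f j e) (hfF : ∀ j e, f j e ≤ F)
    {lam : ℝ} (hlam : 0 < lam)
    (hl : (Real.exp (4 * ((r : ℝ) ^ 2 * κ)) - 1) + Real.exp (2 * r) * (r * κ) ≤ lam ^ 2)
    {δ : ℝ} (hδ : 0 < δ) (hδ1 : δ ≤ 1) (hV : 0 < Fintype.card V)
    (hprob : (Fintype.card J + 1) *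
      Real.exp (-(δ ^ 2 / (4 * lipC r F ^ 2) * Fintype.card V)) + lam / δ < 1) (T : ℕ) :
    ∀ x : E → ℝ, Good vs x (κ * Real.exp (-(θ * r * T))) r →
      ∃ M : Finset E, (∀ e ∈ M, 0 < x e) ∧ (∀ e ∈ M, ∀ f ∈ M, e ≠ f → Disjoint (vs e) (vs f)) ∧
        ∀ j, ∑ e, f j e * x e
          - F * (Real.exp (-θ + θ * ((r : ℝ) ^ 2 * κ)) ^ T * ∑ e, x e
              + T * (δ * Fintype.card V))
          - T * ((r * θ ^ 2 * F + (1 + F) * δ) * Fintype.card V) ≤ ∑ e ∈ M, f j e := by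
  classical
  have hF0 : 0 ≤ F := by linarith
  set ρ := Real.exp (-θ + θ * ((r : ℝ) ^ 2 * κ)) with hρ
  have hρ0 : 0 < ρ := Real.exp_pos _
  have hρ1 : ρ ≤ 1 := by
    rw [hρ, Real.exp_le_one_iff]
    nlinarith
  set N : ℝ := (Fintype.card V : ℝ) with hN
  have hN0 : 0 ≤ N := by positivity
  induction T with
  | zero =>
    intro x hx
    refine ⟨∅, by simp, by simp, fun j => ?_⟩
    simp only [pow_zero, one_mul, Nat.cast_zero, zero_mul, sub_zero, sum_empty, add_zero]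
    rw [mul_sum, ← sum_sub_distrib]
    refine sum_nonpos fun e _ => ?_
    have := mul_le_mul_of_nonneg_right (hfF j e) (hx.nonneg e)
    linarith
  | succ T ih =>
    intro x hx
    set κ' := κ * Real.exp (-(θ * r * ((T + 1 : ℕ) : ℝ))) with hκ'
    have hκ'0 : 0 ≤ κ' := mul_nonneg hκ (Real.exp_pos _).le
    have hκ'κ : κ' ≤ κ := by
      rw [hκ']
      refine mul_le_of_le_one_right hκ ?_
      rw [Real.exp_le_one_iff]
      have : 0 ≤ θ * r * ((T + 1 : ℕ) : ℝ) := by positivity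
      linarith
    have hr2 : (r : ℝ) ^ 2 * κ' ≤ (r : ℝ) ^ 2 * κ :=
      mul_le_mul_of_nonneg_left hκ'κ (by positivity)
    have hl' : (Real.exp (4 * ((r : ℝ) ^ 2 * κ')) - 1) + Real.exp (2 * r) * (r * κ') ≤ lam ^ 2 := by
      refine le_trans (add_le_add (sub_le_sub_right (Real.exp_le_exp.2 ?_) _) ?_) hl
      · linarith
      · exact mul_le_mul_of_nonneg_left (mul_le_mul_of_nonneg_left hκ'κ (by positivity))
          (Real.exp_pos _).le
    obtain ⟨M₁, y, hy, hM₁, hyM, hMx, hsum, hy2⟩ := step_tests hx hκ'0 hθ hθ1 hF hf0 hfF hlam hl'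
      hδ hδ1 hV hprob
    have hκ'' : κ' * Real.exp (θ * r) = κ * Real.exp (-(θ * r * T)) := by
      rw [hκ', mul_assoc, ← Real.exp_add]
      congr 2
      push_cast
      ring
    rw [hκ''] at hy
    obtain ⟨M₂, hM₂x, hM₂, hsum₂⟩ := ih y hy
    have hdisj : Disjoint M₁ M₂ := by
      rw [Finset.disjoint_left]
      intro e he1 he2
      have h1 := (hyM e (hM₂x e he2)).2 e he1
      rw [disjoint_self] at h1
      exact (hx.nonempty e).ne_empty h1
    refine ⟨M₁ ∪ M₂, ?_, ?_, fun j => ?_⟩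
    · intro e he
      rcases mem_union.1 he with h1 | h1
      · exact hMx e h1
      · exact (hyM e (hM₂x e h1)).1
    · intro e he f hf hef
      rcases mem_union.1 he with h1 | h1 <;> rcases mem_union.1 hf with h2 | h2
      · exact hM₁ e h1 f h2 hef
      · exact ((hyM f (hM₂x f h2)).2 e h1).symm
      · exact (hyM e (hM₂x e h1)).2 f h2
      · exact hM₂ e h1 f h2 hef
    · rw [sum_union hdisj]
      have h1 : Real.exp (-θ + θ * ((r : ℝ) ^ 2 * κ')) ≤ ρ := by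
        rw [hρ]
        apply Real.exp_le_exp.2
        nlinarith
      have hS0 : 0 ≤ ∑ e, x e := sum_nonneg fun e _ => hx.nonneg e
      have h2 : ∑ e, y e ≤ ρ * ∑ e, x e + δ * N := by
        have := mul_le_mul_of_nonneg_right h1 hS0
        linarith
      have h3 : ρ ^ T * ∑ e, y e ≤ ρ ^ (T + 1) * ∑ e, x e + δ * N := by
        have h4 : ρ ^ T ≤ 1 := pow_le_one₀ hρ0.le hρ1
        have h5 : 0 ≤ ρ ^ T := by positivity
        have h6 := mul_le_mul_of_nonneg_left h2 h5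
        have h7 : ρ ^ T * (δ * N) ≤ 1 * (δ * N) :=
          mul_le_mul_of_nonneg_right h4 (by positivity)
        calc ρ ^ T * ∑ e, y e ≤ ρ ^ T * (ρ * ∑ e, x e + δ * N) := h6
          _ = ρ ^ (T + 1) * ∑ e, x e + ρ ^ T * (δ * N) := by ring
          _ ≤ _ := by linarith
      have h8 := hsum j
      have h9 := hsum₂ j
      have h10 := mul_le_mul_of_nonneg_left h3 hF0
      push_cast
      nlinarith [h8, h9, h10]

end Iter

/-- **Nibble with tests.** -/
theorem nibble_tests (r : ℕ) (F δ : ℝ) (hF : 1 ≤ F) (hδ : 0 < δ) :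
    ∃ κ > 0, ∃ c > 0, ∃ n₀ : ℕ, ∀ (E V J : Type) [Fintype E] [DecidableEq E] [Fintype V]
      [DecidableEq V] [Fintype J] (vs : E → Finset V) (x : E → ℝ) (f : J → E → ℝ),
      Good vs x κ r → (∀ j e, 0 ≤ f j e) → (∀ j e, f j e ≤ F) → n₀ ≤ Fintype.card V →
      (Fintype.card J : ℝ) ≤ Real.exp (c * Fintype.card V) →
      ∃ M : Finset E, (∀ e ∈ M, 0 < x e) ∧
        (∀ e ∈ M, ∀ f ∈ M, e ≠ f → Disjoint (vs e) (vs f)) ∧
        ∀ j, ∑ e, f j e * x e - δ * Fintype.card V ≤ ∑ e ∈ M, f j e := by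
  have hF0 : 0 < F := by linarith
  obtain ⟨L, hL0, hL⟩ : ∃ L : ℝ, 0 < L ∧ F * Real.exp (-(L / 2)) ≤ δ / 4 := by
    refine ⟨max 1 (2 * Real.log (4 * F / δ)), lt_max_of_lt_left one_pos, ?_⟩
    have h1 : Real.log (4 * F / δ) ≤ max 1 (2 * Real.log (4 * F / δ)) / 2 := by
      have := le_max_right 1 (2 * Real.log (4 * F / δ))
      linarith
    have h2 : Real.exp (-(max 1 (2 * Real.log (4 * F / δ)) / 2)) ≤ δ / (4 * F) := by
      calc Real.exp (-(max 1 (2 * Real.log (4 * F / δ)) / 2))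
          ≤ Real.exp (-Real.log (4 * F / δ)) := Real.exp_le_exp.2 (neg_le_neg h1)
        _ = δ / (4 * F) := by
            rw [Real.exp_neg, Real.exp_log (by positivity), inv_div]
    calc F * Real.exp (-(max 1 (2 * Real.log (4 * F / δ)) / 2)) ≤ F * (δ / (4 * F)) :=
          mul_le_mul_of_nonneg_left h2 hF0.le
      _ = δ / 4 := by field_simp
  obtain ⟨T, hT⟩ := exists_nat_gt (max L (4 * F * r * L ^ 2 / δ))
  have hTL : L < T := lt_of_le_of_lt (le_max_left _ _) hT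
  have hT0 : (0 : ℝ) < T := hL0.trans hTL
  have hT2 : 4 * F * r * L ^ 2 / δ < T := lt_of_le_of_lt (le_max_right _ _) hT
  set θ := L / T with hθ
  have hθ0 : 0 ≤ θ := by positivity
  have hθ1 : θ ≤ 1 := by rw [hθ, div_le_one hT0]; exact hTL.le
  set δ' := min 1 (δ / (4 * T * (1 + 2 * F))) with hδ'
  have hδ'0 : 0 < δ' := lt_min one_pos (by positivity)
  have hδ'1 : δ' ≤ 1 := min_le_left _ _
  have hδ'2 : T * ((1 + 2 * F) * δ') ≤ δ / 4 := by
    have h1 : δ' ≤ δ / (4 * T * (1 + 2 * F)) := min_le_right _ _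
    have h2 : 0 ≤ (T : ℝ) * (1 + 2 * F) := by positivity
    have h3 := mul_le_mul_of_nonneg_left h1 h2
    have h4 : (T : ℝ) * (1 + 2 * F) * (δ / (4 * T * (1 + 2 * F))) = δ / 4 := by
      field_simp
    rw [h4] at h3
    linarith
  set lam := δ' / 4 with hlam
  have hlam0 : 0 < lam := by positivity
  obtain ⟨κ, hκ0, hκ1, hκ2⟩ : ∃ κ : ℝ, 0 < κ ∧ (r : ℝ) ^ 2 * κ ≤ 1 / 2 ∧
      (Real.exp (4 * ((r : ℝ) ^ 2 * κ)) - 1) + Real.exp (2 * r) * (r * κ) ≤ lam ^ 2 := by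
    have hc : Filter.Tendsto (fun κ : ℝ => (Real.exp (4 * ((r : ℝ) ^ 2 * κ)) - 1)
        + Real.exp (2 * r) * (r * κ)) (nhds 0) (nhds 0) := by
      have : Continuous (fun κ : ℝ => (Real.exp (4 * ((r : ℝ) ^ 2 * κ)) - 1)
        + Real.exp (2 * r) * (r * κ)) := by fun_prop
      have h := this.tendsto 0
      simpa using h
    have hc2 : Filter.Tendsto (fun κ : ℝ => (r : ℝ) ^ 2 * κ) (nhds 0) (nhds 0) := by
      have : Continuous (fun κ : ℝ => (r : ℝ) ^ 2 * κ) := by fun_prop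
      have h := this.tendsto 0
      simpa using h
    have h1 := hc.eventually_lt_const (show (0 : ℝ) < lam ^ 2 by positivity)
    have h2 := hc2.eventually_lt_const (show (0 : ℝ) < 1 / 2 by norm_num)
    have h3 := (h1.and h2)
    have h4 := (h3.filter_mono (nhdsWithin_le_nhds (s := Set.Ioi 0))).and self_mem_nhdsWithin
    obtain ⟨κ, ⟨ha, hb⟩, hc⟩ := h4.exists
    exact ⟨κ, hc, hb.le, ha.le⟩
  set c1 := δ' ^ 2 / (4 * lipC r F ^ 2) with hc1
  have hlip : 0 < lipC r F := by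
    unfold lipC
    have h1 : 0 ≤ ((r : ℝ) + 1) * F := by positivity
    have h2 : 0 ≤ F * (r * Real.exp r) := by positivity
    linarith
  have hc10 : 0 < c1 := by positivity
  obtain ⟨n₀, hn₀⟩ := exists_nat_gt (2 * Real.log 4 / c1)
  refine ⟨κ * Real.exp (-(θ * r * T)), by positivity, c1 / 2, by positivity, n₀ + 1, ?_⟩
  intro E V J _ _ _ _ _ vs x f hx hf0 hfF hV hJ
  have hV0 : 0 < Fintype.card V := by omega
  set N : ℝ := (Fintype.card V : ℝ) with hN
  have hN0 : 0 ≤ N := by positivity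
  have hNn : (n₀ : ℝ) ≤ N := by
    rw [hN]
    exact_mod_cast (by omega : n₀ ≤ Fintype.card V)
  have hprob : (Fintype.card J + 1) * Real.exp (-(δ' ^ 2 / (4 * lipC r F ^ 2) * N)) + lam / δ' < 1 := by
    rw [← hc1]
    have h1 : lam / δ' = 1 / 4 := by
      rw [hlam]
      field_simp
    rw [h1]
    have h2 : 1 ≤ Real.exp (c1 / 2 * N) := Real.one_le_exp (by positivity)
    have h3 : ((Fintype.card J : ℝ) + 1) ≤ 2 * Real.exp (c1 / 2 * N) := by linarith
    have h4 : ((Fintype.card J : ℝ) + 1) * Real.exp (-(c1 * N)) ≤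
        2 * Real.exp (-(c1 / 2 * N)) := by
      calc _ ≤ 2 * Real.exp (c1 / 2 * N) * Real.exp (-(c1 * N)) :=
            mul_le_mul_of_nonneg_right h3 (Real.exp_pos _).le
        _ = _ := by
            rw [mul_assoc, ← Real.exp_add]
            congr 2
            ring
    have h5 : Real.exp (-(c1 / 2 * N)) ≤ 1 / 4 := by
      have h6 : Real.log 4 ≤ c1 / 2 * N := by
        have h7 : 2 * Real.log 4 / c1 < N := lt_of_lt_of_le hn₀ hNn
        rw [div_lt_iff₀ hc10] at h7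
        linarith
      calc Real.exp (-(c1 / 2 * N)) ≤ Real.exp (-Real.log 4) := Real.exp_le_exp.2 (by linarith)
        _ = 1 / 4 := by rw [Real.exp_neg, Real.exp_log (by norm_num), one_div]
    linarith
  obtain ⟨M, hMx, hMd, hM⟩ := tests_iter (vs := vs) hθ0 hθ1 hκ0.le (by linarith) hF hf0 hfF hlam0
    hκ2 hδ'0 hδ'1 hV0 hprob T x hx
  refine ⟨M, hMx, hMd, fun j => le_trans ?_ (hM j)⟩
  have hS0 : 0 ≤ ∑ e, x e := sum_nonneg fun e _ => hx.nonneg e
  have hSV : ∑ e, x e ≤ N := hx.sum_le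
  have h4 : Real.exp (-θ + θ * ((r : ℝ) ^ 2 * κ)) ^ T ≤ Real.exp (-(L / 2)) := by
    rw [← Real.exp_nat_mul]
    apply Real.exp_le_exp.2
    have h5 : -θ + θ * ((r : ℝ) ^ 2 * κ) ≤ -(θ / 2) := by nlinarith
    have h6 : (T : ℝ) * (-(θ / 2)) = -(L / 2) := by
      rw [hθ]
      field_simp
    calc (T : ℝ) * (-θ + θ * ((r : ℝ) ^ 2 * κ)) ≤ T * (-(θ / 2)) :=
          mul_le_mul_of_nonneg_left h5 hT0.le
      _ = _ := h6
  have h8 : F * (Real.exp (-θ + θ * ((r : ℝ) ^ 2 * κ)) ^ T * ∑ e, x e) ≤ δ / 4 * N := by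
    have h9 : Real.exp (-θ + θ * ((r : ℝ) ^ 2 * κ)) ^ T * ∑ e, x e ≤ Real.exp (-(L / 2)) * N :=
      mul_le_mul h4 hSV hS0 (Real.exp_pos _).le
    have h10 := mul_le_mul_of_nonneg_left h9 hF0.le
    have h11 := mul_le_mul_of_nonneg_right hL hN0
    linarith
  have h9 : (T : ℝ) * (r * θ ^ 2 * F) ≤ δ / 4 := by
    rw [hθ]
    have h11 : (T : ℝ) * (r * (L / T) ^ 2 * F) = F * r * L ^ 2 / T := by
      field_simp
    rw [h11, div_le_iff₀ hT0]
    rw [div_lt_iff₀ hδ] at hT2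
    linarith
  have h10 := mul_le_mul_of_nonneg_right hδ'2 hN0
  have h11 := mul_le_mul_of_nonneg_right h9 hN0
  have h12 : 0 ≤ δ / 4 * N := by positivity
  nlinarith [h8, h10, h11, h12]

end Pool.Agent.AMB
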