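import Pool.Agent.AMB.Bst
import Pool.Agent.MP9a04dc.Nibble

/-!
# The nibble with tests: one step

* `iso_lip`, `nx_lip`: adding one hyperedge to the random set changes the test functions by `O(1)`;
* `step_tests`: one step of the nibble with many test functions.
-/

set_option autoImplicit false
set_option linter.unusedSectionVars false

namespace Pool.Agent.AMB

open Finset
open Pool.Agent.MP9a04dc

section Lip

variable {E V : Type*} [Fintype E] [DecidableEq E] [DecidableEq V]
  {vs : E → Finset V} {x : E → ℝ} {κ : ℝ} {r : ℕ}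

theorem mem_iso {R : Finset E} {e : E} : e ∈ iso vs R ↔ e ∈ R ∧ R ∩ meets vs (vs e) = {e} := by
  simp [iso]

/-- at most `r` isolated edges meet a given edge -/
theorem card_iso_meets_le (hr : ∀ e, (vs e).card ≤ r) (R : Finset E) (e₀ : E) :
    ((iso vs R).filter fun e => ¬ Disjoint (vs e) (vs e₀)).card ≤ r := by
  classical
  refine le_trans ?_ (hr e₀)
  rcases isEmpty_or_nonempty V with hV | hV
  · have h0 : (iso vs R).filter (fun e => ¬ Disjoint (vs e) (vs e₀)) = ∅ := by
      refine filter_eq_empty_iff.2 fun e _ => not_not.2 ?_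
      rw [Finset.disjoint_left]
      intro v
      exact (hV.false v).elim
    rw [h0, card_empty]
    exact Nat.zero_le _
  have hch : ∀ e, ¬ Disjoint (vs e) (vs e₀) → ∃ v, v ∈ vs e ∧ v ∈ vs e₀ := fun e he =>
    Finset.not_disjoint_iff.1 he
  choose! g hg using hch
  refine card_le_card_of_injOn g ?_ ?_
  · intro e he
    exact (hg e (mem_filter.1 he).2).2
  · intro e he f hf hef
    have he1 := mem_filter.1 he
    have hf1 := mem_filter.1 hf
    by_contra hne
    have h1 : f ∈ R ∩ meets vs (vs e) := by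
      refine mem_inter.2 ⟨(mem_iso.1 hf1.1).1, mem_meets.2 ?_⟩
      rw [Finset.not_disjoint_iff]
      exact ⟨g e, hef ▸ (hg f hf1.2).1, (hg e he1.2).1⟩
    rw [(mem_iso.1 he1.1).2, mem_singleton] at h1
    exact hne h1.symm

theorem iso_lip (hr : ∀ e, (vs e).card ≤ r) {f : E → ℝ} {F : ℝ} (hF : 0 ≤ F)
    (hf0 : ∀ e, 0 ≤ f e) (hfF : ∀ e, f e ≤ F) (R : Finset E) (e₀ : E) (_he₀ : e₀ ∉ R) :
    |∑ e ∈ iso vs (insert e₀ R), f e - ∑ e ∈ iso vs R, f e| ≤ (r + 1) * F := by
  classical
  set A := iso vs (insert e₀ R) with hA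
  set B := iso vs R with hB
  have h1 : A ⊆ insert e₀ B := by
    intro e he
    rw [mem_insert]
    by_cases hee : e = e₀
    · exact Or.inl hee
    · right
      have h2 := mem_iso.1 he
      have h3 : e ∈ R := by
        rcases mem_insert.1 h2.1 with h | h
        · exact absurd h hee
        · exact h
      refine mem_iso.2 ⟨h3, ?_⟩
      ext g
      rw [mem_singleton, mem_inter]
      constructor
      · rintro ⟨h4, h5⟩
        have : g ∈ insert e₀ R ∩ meets vs (vs e) := mem_inter.2 ⟨mem_insert_of_mem h4, h5⟩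
        rw [h2.2, mem_singleton] at this
        exact this
      · rintro rfl
        refine ⟨h3, ?_⟩
        have : g ∈ insert e₀ R ∩ meets vs (vs g) := by
          rw [h2.2]
          exact mem_singleton_self _
        exact (mem_inter.1 this).2
  have h2 : B ⊆ A ∪ B.filter fun e => ¬ Disjoint (vs e) (vs e₀) := by
    intro e he
    rw [mem_union]
    by_cases hd : Disjoint (vs e) (vs e₀)
    · left
      have h3 := mem_iso.1 he
      refine mem_iso.2 ⟨mem_insert_of_mem h3.1, ?_⟩
      rw [insert_inter_of_notMem]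
      · exact h3.2
      · rw [mem_meets, not_not]
        exact hd.symm
    · right
      exact mem_filter.2 ⟨he, hd⟩
  have h3 : ∑ e ∈ A, f e ≤ ∑ e ∈ B, f e + F := by
    refine (sum_le_sum_of_subset_of_nonneg h1 fun e _ _ => hf0 e).trans ?_
    by_cases hm : e₀ ∈ B
    · rw [insert_eq_of_mem hm]
      linarith
    · rw [sum_insert hm]
      have := hfF e₀
      linarith
  have h4 : ∑ e ∈ B, f e ≤ ∑ e ∈ A, f e + r * F := by
    refine (sum_le_sum_of_subset_of_nonneg h2 fun e _ _ => hf0 e).trans ?_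
    have h6 := sum_union_inter (s₁ := A) (s₂ := B.filter fun e => ¬ Disjoint (vs e) (vs e₀))
      (f := f)
    have h7 : 0 ≤ ∑ e ∈ A ∩ B.filter (fun e => ¬ Disjoint (vs e) (vs e₀)), f e :=
      sum_nonneg fun e _ => hf0 e
    have h5 : ∑ e ∈ B.filter (fun e => ¬ Disjoint (vs e) (vs e₀)), f e ≤ r * F := by
      calc _ ≤ ∑ e ∈ B.filter (fun e => ¬ Disjoint (vs e) (vs e₀)), F :=
            sum_le_sum fun e _ => hfF e
        _ = ((B.filter (fun e => ¬ Disjoint (vs e) (vs e₀))).card : ℝ) * F := by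
            rw [sum_const, nsmul_eq_mul]
        _ ≤ r * F := by
            refine mul_le_mul_of_nonneg_right ?_ hF
            exact_mod_cast card_iso_meets_le hr R e₀
    linarith
  rw [abs_le]
  have hrF : 0 ≤ (r : ℝ) * F := by positivity
  constructor
  · linarith
  · linarith

theorem nx_lip (h : Good vs x κ r) {θ : ℝ} (hθ : 0 ≤ θ) (hθ1 : θ ≤ 1) {f : E → ℝ} {F : ℝ}
    (hF : 0 ≤ F) (hf0 : ∀ e, 0 ≤ f e) (hfF : ∀ e, f e ≤ F) (R : Finset E) (e₀ : E) :
    |∑ e, f e * nx vs x θ (insert e₀ R) e - ∑ e, f e * nx vs x θ R e| ≤ F * (r * Real.exp r) := by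
  classical
  have h1 : ∀ e, nx vs x θ (insert e₀ R) e = nx vs x θ R e ∨
      (e ∈ meets vs (vs e₀) ∧ nx vs x θ (insert e₀ R) e = 0) := by
    intro e
    by_cases hm : e₀ ∈ meets vs (vs e)
    · right
      refine ⟨mem_meets.2 fun h2 => (mem_meets.1 hm) h2.symm, ?_⟩
      unfold nx
      rw [if_neg, mul_zero]
      intro h2
      exact (Finset.disjoint_left.1 h2 (mem_insert_self _ _)) hm
    · left
      unfold nx
      have : Disjoint (insert e₀ R) (meets vs (vs e)) ↔ Disjoint R (meets vs (vs e)) := by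
        rw [disjoint_insert_left]
        exact ⟨fun h => h.2, fun h => ⟨hm, h⟩⟩
      simp only [this]
  have h2 : ∀ e, |f e * nx vs x θ (insert e₀ R) e - f e * nx vs x θ R e| ≤
      if e ∈ meets vs (vs e₀) then F * (Real.exp r * x e) else 0 := by
    intro e
    have hnn := nx_nonneg (θ := θ) (vs := vs) h.nonneg R e
    have hnw : nx vs x θ R e ≤ Real.exp r * x e := by
      unfold nx nw
      have h3 : Real.exp (θ * (tau vs x e - 1)) ≤ Real.exp r := by
        refine Real.exp_le_exp.2 ?_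
        have h4 := h.tau_le e
        have h5 := h.tau_nonneg e
        have h6 : (0 : ℝ) ≤ r := by positivity
        nlinarith
      have h4 : x e * Real.exp (θ * (tau vs x e - 1)) ≤ x e * Real.exp r :=
        mul_le_mul_of_nonneg_left h3 (h.nonneg e)
      have h5 : 0 ≤ x e * Real.exp r := mul_nonneg (h.nonneg e) (Real.exp_pos _).le
      split_ifs
      · linarith
      · linarith
    rcases h1 e with h3 | ⟨h3, h4⟩
    · rw [h3, sub_self, abs_zero]
      split_ifs
      · have := mul_nonneg hF (mul_nonneg (Real.exp_pos r).le (h.nonneg e))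
        exact this
      · exact le_rfl
    · rw [if_pos h3, h4, mul_zero, zero_sub, abs_neg, abs_of_nonneg (mul_nonneg (hf0 e) hnn)]
      exact mul_le_mul (hfF e) hnw hnn hF
  rw [← sum_sub_distrib]
  refine (abs_sum_le_sum_abs _ _).trans ((sum_le_sum fun e _ => h2 e).trans ?_)
  rw [← sum_filter]
  have h3 : (univ.filter fun e => e ∈ meets vs (vs e₀)) = meets vs (vs e₀) := by
    ext e
    simp
  rw [h3, ← mul_sum, ← mul_sum]
  refine mul_le_mul_of_nonneg_left ?_ hF
  rw [mul_comm (r : ℝ)]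
  refine mul_le_mul_of_nonneg_left ?_ (Real.exp_pos _).le
  exact (h.mass_le_tau e₀).trans (h.tau_le e₀)

end Lip

section Step

variable {E V : Type*} [Fintype E] [DecidableEq E] [Fintype V] [DecidableEq V]
  {vs : E → Finset V} {x : E → ℝ} {κ : ℝ} {r : ℕ}

/-- the Lipschitz constant of the tests -/
noncomputable def lipC (r : ℕ) (F : ℝ) : ℝ := 1 + (r + 1) * F + F * (r * Real.exp r)

open Classical in
/-- One step of the nibble with tests. -/
theorem step_tests (h : Good vs x κ r) (hκ : 0 ≤ κ) {θ : ℝ} (hθ : 0 ≤ θ) (hθ1 : θ ≤ 1)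
    {J : Type*} [Fintype J] {f : J → E → ℝ} {F : ℝ} (hF : 1 ≤ F)
    (hf0 : ∀ j e, 0 ≤ f j e) (hfF : ∀ j e, f j e ≤ F)
    {lam : ℝ} (hlam : 0 < lam)
    (hl : (Real.exp (4 * ((r : ℝ) ^ 2 * κ)) - 1) + Real.exp (2 * r) * (r * κ) ≤ lam ^ 2)
    {δ : ℝ} (hδ : 0 < δ) (hδ1 : δ ≤ 1) (hV : 0 < Fintype.card V)
    (hprob : (Fintype.card J + 1) *
      Real.exp (-(δ ^ 2 / (4 * lipC r F ^ 2) * Fintype.card V)) + lam / δ < 1) :
    ∃ (M : Finset E) (y : E → ℝ), Good vs y (κ * Real.exp (θ * r)) r ∧
      (∀ e ∈ M, ∀ f ∈ M, e ≠ f → Disjoint (vs e) (vs f)) ∧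
      (∀ e, 0 < y e → 0 < x e ∧ ∀ f ∈ M, Disjoint (vs e) (vs f)) ∧
      (∀ e ∈ M, 0 < x e) ∧
      (∀ j, ∑ e, f j e * x e - (r * θ ^ 2 * F + (1 + F) * δ) * Fintype.card V
        ≤ ∑ e ∈ M, f j e + ∑ e, f j e * y e) ∧
      ∑ e, y e ≤ Real.exp (-θ + θ * ((r : ℝ) ^ 2 * κ)) * ∑ e, x e + δ * Fintype.card V := by
  set N : ℝ := (Fintype.card V : ℝ) with hN
  have hN0 : 0 < N := by
    rw [hN]
    exact_mod_cast hV
  have hF0 : 0 ≤ F := by linarith
  set C : ℝ := lipC r F with hC
  have hC1 : 1 ≤ C := by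
    rw [hC, lipC]
    have h1 : 0 ≤ ((r : ℝ) + 1) * F := by positivity
    have h2 : 0 ≤ F * (r * Real.exp r) := by positivity
    linarith
  have hC0 : 0 < C := by linarith
  set q : E → ℝ := fun e => Real.exp (-θ * x e) with hq
  have hq0 : ∀ e, 0 ≤ q e := fun e => (Real.exp_pos _).le
  have hq1 : ∀ e, q e ≤ 1 := fun e => by
    rw [hq]
    simp only
    rw [Real.exp_le_one_iff]
    nlinarith [mul_nonneg hθ (h.nonneg e)]
  have hsum : ∑ e, (1 - q e) ≤ N := by
    calc ∑ e, (1 - q e) ≤ ∑ e, x e := by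
          refine sum_le_sum fun e _ => ?_
          have h1 := Real.add_one_le_exp (-θ * x e)
          have h2 := h.nonneg e
          change 1 - Real.exp (-θ * x e) ≤ x e
          nlinarith
      _ ≤ N := h.sum_le
  set l : ℝ := δ / (2 * C ^ 2) with hlx
  have hl0 : 0 ≤ l := by positivity
  have hlC : l * C ≤ 1 := by
    rw [hlx, div_mul_eq_mul_div, div_le_one (by positivity)]
    nlinarith
  have hexp : Real.exp (-(l * (δ * N)) + l ^ 2 * C ^ 2 * N) =
      Real.exp (-(δ ^ 2 / (4 * C ^ 2) * N)) := by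
    congr 1
    rw [hlx]
    field_simp
    ring
  -- the test functions
  set w : J → E → ℝ := fun j e => if 0 < x e then f j e else 0 with hw
  have hw0 : ∀ j e, 0 ≤ w j e := fun j e => by
    simp only [hw]; split_ifs; exacts [hf0 j e, le_rfl]
  have hwF : ∀ j e, w j e ≤ F := fun j e => by
    simp only [hw]; split_ifs; exacts [hfF j e, hF0]
  set T : J → Finset E → ℝ := fun j R =>
    ∑ e ∈ iso vs R, w j e + ∑ e, f j e * nx vs x θ R e with hT
  have hTlip : ∀ j R, ∀ e ∉ R, |T j (insert e R) - T j R| ≤ C := by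
    intro j R e he
    have h1 := iso_lip (vs := vs) h.card_le hF0 (hw0 j) (hwF j) R e he
    have h2 := nx_lip h hθ hθ1 hF0 (hf0 j) (hfF j) R e
    have h3 : T j (insert e R) - T j R =
        (∑ g ∈ iso vs (insert e R), w j g - ∑ g ∈ iso vs R, w j g) +
        (∑ g, f j g * nx vs x θ (insert e R) g - ∑ g, f j g * nx vs x θ R g) := by
      simp only [hT]
      ring
    rw [h3]
    refine (abs_add_le _ _).trans ?_
    rw [hC, lipC]
    linarith
  have hTex : ∀ j, ∑ e, f j e * x e - r * θ ^ 2 * F * N ≤ ex q (T j) := by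
    intro j
    have h1 : ex q (T j) = ex q (fun R => ∑ e ∈ iso vs R, w j e) +
        ∑ e, f j e * ex q (fun R => nx vs x θ R e) := by
      rw [hT]
      simp only
      rw [ex_add, ex_sum]
      simp_rw [ex_mul]
    rw [h1]
    have h2 := h.le_ex_iso hθ (w j) (hw0 j)
    have h3 : ∑ e, w j e * x e * (θ - r * θ ^ 2) = (∑ e, f j e * x e) * (θ - r * θ ^ 2) := by
      rw [sum_mul]
      refine sum_congr rfl fun e _ => ?_
      simp only [hw]
      split_ifs with h4
      · rfl
      · have : x e = 0 := le_antisymm (not_lt.1 h4) (h.nonneg e)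
        rw [this]; ring
    have h4 : (∑ e, f j e * x e) * (1 - θ) ≤ ∑ e, f j e * ex q (fun R => nx vs x θ R e) := by
      rw [sum_mul]
      refine sum_le_sum fun e _ => ?_
      rw [mul_assoc]
      refine mul_le_mul_of_nonneg_left ?_ (hf0 j e)
      refine le_trans ?_ (h.le_ex_nx hθ e)
      refine mul_le_mul_of_nonneg_left ?_ (h.nonneg e)
      have := Real.add_one_le_exp (-θ)
      linarith
    rw [h3] at h2
    change _ ≤ ex q (fun R => ∑ e ∈ iso vs R, w j e) at h2
    have h5 : ∑ e, f j e * x e ≤ F * N := by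
      calc ∑ e, f j e * x e ≤ ∑ e, F * x e :=
            sum_le_sum fun e _ => mul_le_mul_of_nonneg_right (hfF j e) (h.nonneg e)
        _ = F * ∑ e, x e := by rw [mul_sum]
        _ ≤ F * N := mul_le_mul_of_nonneg_left h.sum_le hF0
    have h6 : (∑ e, f j e * x e) * (r * θ ^ 2) ≤ F * N * (r * θ ^ 2) :=
      mul_le_mul_of_nonneg_right h5 (by positivity)
    nlinarith
  -- the total weight
  set S : Finset E → ℝ := fun R => ∑ e, nx vs x θ R e with hS
  have hSlip : ∀ R, ∀ e ∉ R, |S (insert e R) - S R| ≤ C := by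
    intro R e _
    have h2 := nx_lip h hθ hθ1 (f := fun _ => 1) (F := 1) zero_le_one (fun _ => zero_le_one)
      (fun _ => le_rfl) R e
    simp only [one_mul] at h2
    refine h2.trans ?_
    rw [hC, lipC]
    have h3 : 0 ≤ ((r : ℝ) + 1) * F := by positivity
    have h4 : 0 ≤ (r : ℝ) * Real.exp r := by positivity
    nlinarith
  have hSex : ex q S ≤ Real.exp (-θ + θ * ((r : ℝ) ^ 2 * κ)) * ∑ e, x e := by
    rw [hS, ex_sum, mul_sum]
    refine sum_le_sum fun e _ => ?_
    rw [mul_comm (Real.exp _)]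
    exact h.ex_nx_le hκ hθ e
  -- the excess
  set L : Finset E → ℝ := fun R => ∑ v, max 0 (deg vs (nx vs x θ R) v - 1) with hL
  have hLex : ex q L ≤ lam * N := by
    rw [hL, ex_sum]
    calc ∑ v, ex q (fun R => max 0 (deg vs (nx vs x θ R) v - 1)) ≤ ∑ v : V, lam :=
          sum_le_sum fun v _ => h.ex_max_le hκ hθ hθ1 hlam hl v
      _ = lam * N := by simp [mul_comm, hN]
  have hL0 : ∀ R, 0 ≤ L R := fun R => sum_nonneg fun v _ => le_max_left _ _
  -- the bad events
  set B : Finset E → ℝ := fun R =>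
    (∑ j, if T j R ≤ ex q (T j) - δ * N then (1 : ℝ) else 0) +
    (if ex q S + δ * N ≤ S R then (1 : ℝ) else 0) + (1 / (δ * N)) * L R with hB
  have hBex : ex q B < 1 := by
    have h1 : ex q B = (∑ j, ex q (fun R => if T j R ≤ ex q (T j) - δ * N then (1 : ℝ) else 0)) +
        ex q (fun R => if ex q S + δ * N ≤ S R then (1 : ℝ) else 0) +
        (1 / (δ * N)) * ex q L := by
      rw [hB, ex_add, ex_add, ex_sum, ex_mul]
    rw [h1]
    have h2 : ∀ j, ex q (fun R => if T j R ≤ ex q (T j) - δ * N then (1 : ℝ) else 0) ≤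
        Real.exp (-(δ ^ 2 / (4 * C ^ 2) * N)) := by
      intro j
      rw [← hexp]
      exact ex_lower hq0 hq1 (T j) (hTlip j) hl0 hlC hsum
    have h3 : ex q (fun R => if ex q S + δ * N ≤ S R then (1 : ℝ) else 0) ≤
        Real.exp (-(δ ^ 2 / (4 * C ^ 2) * N)) := by
      rw [← hexp]
      exact ex_upper hq0 hq1 S hSlip hl0 hlC hsum
    have h4 : (1 / (δ * N)) * ex q L ≤ lam / δ := by
      have h5 : 0 ≤ 1 / (δ * N) := by positivity
      refine (mul_le_mul_of_nonneg_left hLex h5).trans (le_of_eq ?_)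
      field_simp
    have h5 : ∑ j, ex q (fun R => if T j R ≤ ex q (T j) - δ * N then (1 : ℝ) else 0) ≤
        Fintype.card J * Real.exp (-(δ ^ 2 / (4 * C ^ 2) * N)) := by
      refine (sum_le_sum fun j _ => h2 j).trans (le_of_eq ?_)
      simp
    linarith
  obtain ⟨R, hR⟩ := exists_le_ex hq0 hq1 B
  have hR1 : B R < 1 := lt_of_le_of_lt hR hBex
  have hi0 : ∀ (P : Prop) [Decidable P], (0 : ℝ) ≤ if P then 1 else 0 := by
    intro P _
    split_ifs <;> norm_num
  have hparts : (∑ j, if T j R ≤ ex q (T j) - δ * N then (1 : ℝ) else 0) < 1 ∧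
      (if ex q S + δ * N ≤ S R then (1 : ℝ) else 0) < 1 ∧ (1 / (δ * N)) * L R < 1 := by
    have h1 : 0 ≤ ∑ j, if T j R ≤ ex q (T j) - δ * N then (1 : ℝ) else 0 :=
      sum_nonneg fun j _ => hi0 _
    have h2 := hi0 (ex q S + δ * N ≤ S R)
    have h3 : 0 ≤ (1 / (δ * N)) * L R := mul_nonneg (by positivity) (hL0 R)
    have h4 : (∑ j, if T j R ≤ ex q (T j) - δ * N then (1 : ℝ) else 0) +
      (if ex q S + δ * N ≤ S R then (1 : ℝ) else 0) + (1 / (δ * N)) * L R < 1 := hR1
    refine ⟨?_, ?_, ?_⟩ <;> linarith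
  have hTR : ∀ j, ex q (T j) - δ * N < T j R := by
    intro j
    by_contra hcon
    push Not at hcon
    have h1 : (1 : ℝ) ≤ ∑ j, if T j R ≤ ex q (T j) - δ * N then (1 : ℝ) else 0 := by
      have := single_le_sum (f := fun j => if T j R ≤ ex q (T j) - δ * N then (1 : ℝ) else 0)
        (fun j _ => hi0 _) (mem_univ j)
      simp only [if_pos hcon] at this
      exact this
    linarith [hparts.1]
  have hSR : S R < ex q S + δ * N := by
    by_contra hcon
    push Not at hcon
    have := hparts.2.1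
    rw [if_pos hcon] at this
    linarith
  have hLR : L R < δ * N := by
    have h1 := hparts.2.2
    have h2 : 0 < δ * N := by positivity
    rw [one_div, inv_mul_lt_iff₀ h2] at h1
    linarith
  have hloss := sum_nx_sub_ny_le (vs := vs) (θ := θ) h.nonneg R
  change _ ≤ L R at hloss
  refine ⟨(iso vs R).filter (fun e => 0 < x e), ny vs x θ R, h.good_ny hθ R, ?_, ?_, ?_, ?_, ?_⟩
  · intro e he f hf hef
    have he1 := (mem_iso.1 (mem_filter.1 he).1).2
    have hf1 := (mem_iso.1 (mem_filter.1 hf).1).1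
    by_contra hcon
    have : f ∈ R ∩ meets vs (vs e) := by
      refine mem_inter.2 ⟨hf1, mem_meets.2 fun h1 => hcon h1.symm⟩
    rw [he1, mem_singleton] at this
    exact hef this.symm
  · intro e he
    have hnx : 0 < nx vs x θ R e := lt_of_lt_of_le he (ny_le_nx h.nonneg R e)
    have hdis : Disjoint R (meets vs (vs e)) := by
      by_contra hcon
      unfold nx at hnx
      rw [if_neg hcon, mul_zero] at hnx
      exact lt_irrefl _ hnx
    refine ⟨?_, ?_⟩
    · rcases (h.nonneg e).lt_or_eq with h1 | h1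
      · exact h1
      · exfalso
        unfold nx nw at hnx
        rw [← h1, zero_mul, zero_mul] at hnx
        exact lt_irrefl _ hnx
    · intro f hf
      have hf1 := (mem_iso.1 (mem_filter.1 hf).1).1
      by_contra hcon
      exact (Finset.disjoint_left.1 hdis hf1) (mem_meets.2 fun h1 => hcon h1.symm)
  · intro e he
    exact (mem_filter.1 he).2
  · intro j
    have h1 : ∑ e ∈ (iso vs R).filter (fun e => 0 < x e), f j e = ∑ e ∈ iso vs R, w j e := by
      rw [sum_filter]
    rw [h1]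
    have h2 := hTR j
    have h3 := hTex j
    have h4 : ∑ e, f j e * nx vs x θ R e - ∑ e, f j e * ny vs x θ R e ≤ F * L R := by
      rw [← sum_sub_distrib]
      calc _ ≤ ∑ e, F * (nx vs x θ R e - ny vs x θ R e) := by
            refine sum_le_sum fun e _ => ?_
            rw [← mul_sub]
            exact mul_le_mul_of_nonneg_right (hfF j e) (sub_nonneg.2 (ny_le_nx h.nonneg R e))
        _ = F * ∑ e, (nx vs x θ R e - ny vs x θ R e) := by rw [mul_sum]
        _ ≤ _ := mul_le_mul_of_nonneg_left hloss hF0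
    have h5 : F * L R ≤ F * (δ * N) := mul_le_mul_of_nonneg_left hLR.le hF0
    have h6 : T j R = ∑ e ∈ iso vs R, w j e + ∑ e, f j e * nx vs x θ R e := rfl
    rw [h6] at h2
    linarith
  · have h1 : ∑ e, ny vs x θ R e ≤ S R := sum_le_sum fun e _ => ny_le_nx h.nonneg R e
    linarith

end Step

end Pool.Agent.AMB
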