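import Pool.Agent.AMB.TruncB
import Pool.Agent.AMB.Conc

/-!
# Reserving a random set of sums
-/

set_option autoImplicit false
set_option linter.unusedSectionVars false
set_option linter.unusedVariables false

namespace Pool.Agent.AMB

open Finset Pool.Agent.MP9a04dc

section StepT

variable {E V : Type*} [Fintype E] [DecidableEq E] [Fintype V] [DecidableEq V]

/-- every element of `Om` is left out with probability `1 - τ`, the others always -/
noncomputable def qT (Om : Finset V) (τ : ℝ) (v : V) : ℝ := if v ∈ Om then 1 - τ else 1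

/-- the weight after reserving `T` -/
noncomputable def xT (vs : E → Finset V) (x : E → ℝ) (Om : Finset V) (τ : ℝ) (T : Finset V)
    (e : E) : ℝ :=
  x e * ((1 - τ)⁻¹) ^ ((vs e ∩ Om).card) * (if Disjoint T (vs e) then 1 else 0)

variable {vs : E → Finset V} {x : E → ℝ} {κ τ : ℝ} {r : ℕ} {Om : Finset V}

lemma qT_nonneg (hτ1 : τ < 1) (v : V) : 0 ≤ qT Om τ v := by
  unfold qT; split_ifs <;> linarith

lemma qT_pos (hτ1 : τ < 1) (v : V) : 0 < qT Om τ v := by
  unfold qT; split_ifs <;> linarith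

lemma qT_le_one (hτ : 0 ≤ τ) (v : V) : qT Om τ v ≤ 1 := by
  unfold qT; split_ifs <;> linarith

lemma prod_qT (K : Finset V) : ∏ v ∈ K, qT Om τ v = (1 - τ) ^ ((K ∩ Om).card) := by
  unfold qT
  rw [prod_ite, prod_const_one, mul_one, prod_const]
  congr 2

lemma xT_nonneg (hτ1 : τ < 1) (hx : ∀ e, 0 ≤ x e) (T : Finset V) (e : E) :
    0 ≤ xT vs x Om τ T e := by
  unfold xT
  have : 0 ≤ (1 - τ)⁻¹ := inv_nonneg.2 (by linarith)
  have h2 := hx e
  split_ifs
  · positivity
  · simp

lemma one_le_inv_one_sub (hτ : 0 ≤ τ) (hτ1 : τ < 1) : 1 ≤ (1 - τ)⁻¹ :=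
  (one_le_inv₀ (by linarith)).2 (by linarith)

lemma xT_le (hτ : 0 ≤ τ) (hτ1 : τ < 1) (hx : ∀ e, 0 ≤ x e) (hr : ∀ e, (vs e).card ≤ r)
    (T : Finset V) (e : E) : xT vs x Om τ T e ≤ ((1 - τ)⁻¹) ^ r * x e := by
  unfold xT
  have h1 := one_le_inv_one_sub hτ hτ1
  have h2 : ((1 - τ)⁻¹) ^ ((vs e ∩ Om).card) ≤ ((1 - τ)⁻¹) ^ r :=
    pow_le_pow_right₀ h1 ((card_le_card inter_subset_left).trans (hr e))
  have h3 := hx e
  have h4 : 0 ≤ ((1 - τ)⁻¹) ^ ((vs e ∩ Om).card) := by positivity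
  have h5 := mul_le_mul_of_nonneg_left h2 h3
  split_ifs
  · linarith
  · rw [mul_zero]; positivity

lemma ex_xT (hτ1 : τ < 1) (e : E) : ex (qT Om τ) (fun T => xT vs x Om τ T e) = x e := by
  unfold xT
  rw [ex_mul, ex_avoid, prod_qT, mul_assoc, ← mul_pow, inv_mul_cancel₀ (by linarith), one_pow,
    mul_one]

/-- second moment expression -/
noncomputable def devT (vs : E → Finset V) (x : E → ℝ) (Om : Finset V) (τ : ℝ) (v : V)
    (T : Finset V) : ℝ :=
  (deg vs (xT vs x Om τ T) v) ^ 2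
    - 2 * (deg vs x v / qT Om τ v) * deg vs (xT vs x Om τ T) v
    + (deg vs x v / qT Om τ v) ^ 2 * (if Disjoint T {v} then 1 else 0)

lemma deg_xT_sq (v : V) (T : Finset V) :
    (deg vs (xT vs x Om τ T) v) ^ 2
      = ∑ e, ∑ f, (if v ∈ vs e ∧ v ∈ vs f then x e * x f *
          ((1 - τ)⁻¹) ^ ((vs e ∩ Om).card + (vs f ∩ Om).card) else 0) *
          (if Disjoint T (vs e ∪ vs f) then 1 else 0) := by
  rw [sq, deg, sum_mul_sum]
  refine sum_congr rfl fun e _ => sum_congr rfl fun f _ => ?_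
  unfold xT
  have key : Disjoint T (vs e ∪ vs f) ↔ Disjoint T (vs e) ∧ Disjoint T (vs f) :=
    disjoint_union_right
  by_cases h1 : v ∈ vs e <;> by_cases h2 : v ∈ vs f <;>
    by_cases h3 : Disjoint T (vs e) <;>
    by_cases h4 : Disjoint T (vs f) <;> simp [h1, h2, h3, h4, key, pow_add]
  ring

lemma pair_weight (hτ1 : τ < 1) (e f : E) :
    ((1 - τ)⁻¹) ^ ((vs e ∩ Om).card + (vs f ∩ Om).card) * (1 - τ) ^ (((vs e ∪ vs f) ∩ Om).card)
      = ((1 - τ)⁻¹) ^ (((vs e ∩ vs f) ∩ Om).card) := by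
  have h : (vs e ∩ Om).card + (vs f ∩ Om).card
      = ((vs e ∪ vs f) ∩ Om).card + ((vs e ∩ vs f) ∩ Om).card := by
    rw [← card_union_add_card_inter (vs e ∩ Om) (vs f ∩ Om)]
    congr 2
    · ext v; simp only [mem_union, mem_inter]; tauto
    · ext v; simp only [mem_inter]; tauto
  rw [h, pow_add, mul_right_comm, ← mul_pow, inv_mul_cancel₀ (by linarith), one_pow, one_mul]

lemma ex_deg_xT_sq_le (h : Good vs x κ r) (hκ : 0 ≤ κ) (hτ : 0 ≤ τ) (hτ1 : τ < 1) (v : V) :
    ex (qT Om τ) (fun T => (deg vs (xT vs x Om τ T) v) ^ 2)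
      ≤ (deg vs x v) ^ 2 / qT Om τ v + ((1 - τ)⁻¹) ^ r * (r * κ) := by
  set q0 := qT Om τ v with hq0
  have hq0pos : 0 < q0 := qT_pos hτ1 v
  have hinv1 := one_le_inv_one_sub hτ hτ1
  simp_rw [deg_xT_sq]
  rw [ex_sum]
  have h0 : ∀ e f, v ∈ vs e → v ∈ vs f →
      x e * x f * ((1 - τ)⁻¹) ^ ((vs e ∩ Om).card + (vs f ∩ Om).card)
          * (1 - τ) ^ (((vs e ∪ vs f) ∩ Om).card)
        ≤ x e * x f * q0⁻¹ + x e * x f * ((1 - τ)⁻¹) ^ r *
          ∑ u ∈ (vs e).erase v, (if u ∈ vs f then 1 else 0) := by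
    intro e f he hf
    have hxe := h.nonneg e
    have hxf := h.nonneg f
    have hxx := mul_nonneg hxe hxf
    rw [mul_assoc (x e * x f), pair_weight hτ1]
    by_cases hint : vs e ∩ vs f = {v}
    · have h3 : ((1 - τ)⁻¹) ^ (((vs e ∩ vs f) ∩ Om).card) = q0⁻¹ := by
        rw [hint, hq0]
        unfold qT
        by_cases hv : v ∈ Om
        · rw [if_pos hv, singleton_inter_of_mem hv, card_singleton, pow_one]
        · rw [if_neg hv, singleton_inter_of_notMem hv, card_empty, pow_zero, inv_one]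
      rw [h3]
      have h11 : 0 ≤ x e * x f * ((1 - τ)⁻¹) ^ r *
          ∑ u ∈ (vs e).erase v, (if u ∈ vs f then (1 : ℝ) else 0) :=
        mul_nonneg (mul_nonneg hxx (by positivity))
          (sum_nonneg fun u _ => by split_ifs <;> norm_num)
      linarith
    · have h3 : ((1 - τ)⁻¹) ^ (((vs e ∩ vs f) ∩ Om).card) ≤ ((1 - τ)⁻¹) ^ r := by
        refine pow_le_pow_right₀ hinv1 ?_
        exact ((card_le_card inter_subset_left).trans (card_le_card inter_subset_left)).trans
          (h.card_le e)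
      have h10 := mul_le_mul_of_nonneg_left h3 hxx
      have h11 : (1 : ℝ) ≤ ∑ u ∈ (vs e).erase v, (if u ∈ vs f then 1 else 0) := by
        have : ∃ u, u ∈ vs e ∩ vs f ∧ u ≠ v := by
          by_contra hcon
          push Not at hcon
          apply hint
          ext u
          simp only [mem_singleton]
          exact ⟨fun hu => hcon u hu, fun hu => by subst hu; exact mem_inter.2 ⟨he, hf⟩⟩
        obtain ⟨u, hu, huv⟩ := this
        have := single_le_sum (f := fun u => if u ∈ vs f then (1 : ℝ) else 0)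
          (fun u _ => by split_ifs <;> norm_num)
          (mem_erase.2 ⟨huv, (mem_inter.1 hu).1⟩)
        simpa [(mem_inter.1 hu).2] using this
      have h12 : 0 ≤ x e * x f * ((1 - τ)⁻¹) ^ r := mul_nonneg hxx (by positivity)
      have h13 := mul_le_mul_of_nonneg_left h11 h12
      have h14 : 0 ≤ x e * x f * q0⁻¹ := mul_nonneg hxx (inv_nonneg.2 hq0pos.le)
      linarith
  have h1 : ∀ e, ex (qT Om τ) (fun T => ∑ f,
      (if v ∈ vs e ∧ v ∈ vs f then x e * x f *
          ((1 - τ)⁻¹) ^ ((vs e ∩ Om).card + (vs f ∩ Om).card) else 0) *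
          (if Disjoint T (vs e ∪ vs f) then 1 else 0))
      ≤ (if v ∈ vs e then x e else 0) * (deg vs x v * q0⁻¹ + ((1 - τ)⁻¹) ^ r * (r * κ)) := by
    intro e
    rw [ex_sum]
    by_cases he : v ∈ vs e
    · rw [if_pos he]
      have h2 : ∀ f, ex (qT Om τ) (fun T =>
          (if v ∈ vs e ∧ v ∈ vs f then x e * x f *
          ((1 - τ)⁻¹) ^ ((vs e ∩ Om).card + (vs f ∩ Om).card) else 0) *
          (if Disjoint T (vs e ∪ vs f) then 1 else 0))
          ≤ x e * ((if v ∈ vs f then x f else 0) * q0⁻¹ + ((1 - τ)⁻¹) ^ r *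
            ∑ u ∈ (vs e).erase v, (if u ∈ vs f ∧ v ∈ vs f then x f else 0)) := by
        intro f
        rw [ex_mul, ex_avoid, prod_qT]
        by_cases hf : v ∈ vs f
        · simp only [he, hf, and_true, if_true]
          refine (h0 e f he hf).trans (le_of_eq ?_)
          rw [mul_add, mul_sum, mul_sum, mul_sum]
          congr 1
          · ring
          · refine sum_congr rfl fun u _ => ?_
            split_ifs <;> ring
        · simp [hf]
      refine (sum_le_sum fun f _ => h2 f).trans ?_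
      rw [← mul_sum]
      refine mul_le_mul_of_nonneg_left ?_ (h.nonneg e)
      rw [sum_add_distrib, ← sum_mul, ← mul_sum]
      refine add_le_add le_rfl (mul_le_mul_of_nonneg_left ?_ (by positivity))
      rw [sum_comm]
      calc ∑ u ∈ (vs e).erase v, ∑ f, (if u ∈ vs f ∧ v ∈ vs f then x f else 0)
          ≤ ∑ u ∈ (vs e).erase v, κ :=
            sum_le_sum fun u hu => h.codeg_le u v (ne_of_mem_erase hu)
        _ = (((vs e).erase v).card : ℝ) * κ := by simp
        _ ≤ r * κ := by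
            refine mul_le_mul_of_nonneg_right ?_ hκ
            exact_mod_cast (card_le_card (erase_subset _ _)).trans (h.card_le e)
    · simp only [he, false_and, if_false, zero_mul]
      simp [ex_const]
  refine (sum_le_sum fun e _ => h1 e).trans ?_
  rw [← sum_mul]
  change deg vs x v * _ ≤ _
  have h2 := h.deg_le v
  have h3 := deg_nonneg (vs := vs) h.nonneg v
  have h4 : 0 ≤ ((1 - τ)⁻¹) ^ r * (r * κ) := by positivity
  have h5 : deg vs x v * (deg vs x v * q0⁻¹) = (deg vs x v) ^ 2 / q0 := by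
    rw [div_eq_mul_inv]; ring
  nlinarith

lemma ex_deg_xT (hτ1 : τ < 1) (v : V) :
    ex (qT Om τ) (fun T => deg vs (xT vs x Om τ T) v) = deg vs x v := by
  unfold deg
  rw [ex_sum]
  refine sum_congr rfl fun e _ => ?_
  split_ifs
  · exact ex_xT hτ1 e
  · exact ex_const _ _

lemma ex_devT_le (h : Good vs x κ r) (hκ : 0 ≤ κ) (hτ : 0 ≤ τ) (hτ1 : τ < 1) (v : V) :
    ex (qT Om τ) (devT vs x Om τ v) ≤ ((1 - τ)⁻¹) ^ r * (r * κ) := by
  set q0 := qT Om τ v with hq0
  have hq0pos : 0 < q0 := qT_pos hτ1 v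
  have h1 : ex (qT Om τ) (devT vs x Om τ v)
      = ex (qT Om τ) (fun T => (deg vs (xT vs x Om τ T) v) ^ 2)
        - 2 * (deg vs x v / q0) * deg vs x v + (deg vs x v / q0) ^ 2 * q0 := by
    have : devT vs x Om τ v = fun T => ((deg vs (xT vs x Om τ T) v) ^ 2
      - 2 * (deg vs x v / q0) * deg vs (xT vs x Om τ T) v)
      + (deg vs x v / q0) ^ 2 * (if Disjoint T {v} then 1 else 0) := rfl
    rw [this, ex_add, ex_sub, ex_mul, ex_mul, ex_deg_xT hτ1, ex_avoid, prod_singleton]
  rw [h1]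
  have h2 := ex_deg_xT_sq_le (Om := Om) h hκ hτ hτ1 v
  have h3 : 2 * (deg vs x v / q0) * deg vs x v = 2 * ((deg vs x v) ^ 2 / q0) := by ring
  have h4 : (deg vs x v / q0) ^ 2 * q0 = (deg vs x v) ^ 2 / q0 := by
    field_simp
  rw [h3, h4]
  rw [← hq0] at h2
  linarith

lemma max_le_devT (hx : ∀ e, 0 ≤ x e) (hτ1 : τ < 1) (v : V) {lam : ℝ}
    (hc : deg vs x v ≤ qT Om τ v) (hlam : 0 < lam) (T : Finset V) :
    max 0 (deg vs (xT vs x Om τ T) v - 1) ≤ lam / 2 + (1 / (2 * lam)) * devT vs x Om τ v T := by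
  set X := deg vs (xT vs x Om τ T) v with hX
  have hq0pos : 0 < qT Om τ v := qT_pos hτ1 v
  set c := deg vs x v / qT Om τ v with hcdef
  have hc1 : c ≤ 1 := by rw [hcdef, div_le_one hq0pos]; exact hc
  unfold devT
  rw [← hX, ← hcdef]
  by_cases hd : Disjoint T {v}
  · rw [if_pos hd]
    have h1 : X ^ 2 - 2 * c * X + c ^ 2 * 1 = (X - c) ^ 2 := by ring
    rw [h1]
    have h2 : |X - c| ≤ lam / 2 + (1 / (2 * lam)) * (X - c) ^ 2 := by
      rw [← sq_abs (X - c)]
      set a := |X - c|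
      have : 0 ≤ (a - lam) ^ 2 / (2 * lam) := by positivity
      have h3 : (a - lam) ^ 2 / (2 * lam) = lam / 2 + (1 / (2 * lam)) * a ^ 2 - a := by
        field_simp
        ring
      linarith
    refine le_trans (max_le (abs_nonneg _) ?_) h2
    exact le_trans (by linarith) (le_abs_self _)
  · rw [if_neg hd]
    have hvT : v ∈ T := by simpa using hd
    have hX0 : X = 0 := by
      rw [hX, deg]
      refine sum_eq_zero fun e _ => ?_
      by_cases hv : v ∈ vs e
      · rw [if_pos hv]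
        unfold xT
        rw [if_neg (fun h => Finset.disjoint_left.1 h hvT hv), mul_zero]
      · rw [if_neg hv]
    rw [hX0]
    have : max (0 : ℝ) (0 - 1) = 0 := by norm_num
    rw [this]
    have : 0 ≤ lam / 2 := by positivity
    simp
    exact this

lemma ex_maxT_le (h : Good vs x κ r) (hκ : 0 ≤ κ) (hτ : 0 ≤ τ) (hτ1 : τ < 1) (v : V) {lam : ℝ}
    (hc : deg vs x v ≤ qT Om τ v) (hlam : 0 < lam)
    (hl : ((1 - τ)⁻¹) ^ r * (r * κ) ≤ lam ^ 2) :
    ex (qT Om τ) (fun T => max 0 (deg vs (xT vs x Om τ T) v - 1)) ≤ lam := by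
  refine (ex_mono (qT_nonneg hτ1) (qT_le_one hτ)
    (fun T => max_le_devT h.nonneg hτ1 v hc hlam T)).trans ?_
  have h1 : ex (qT Om τ) (fun T => lam / 2 + (1 / (2 * lam)) * devT vs x Om τ v T)
      = lam / 2 + (1 / (2 * lam)) * ex (qT Om τ) (devT vs x Om τ v) := by
    rw [ex_add, ex_const, ex_mul]
  rw [h1]
  have h2 := (ex_devT_le (Om := Om) h hκ hτ hτ1 v).trans hl
  have h3 : (1 / (2 * lam)) * ex (qT Om τ) (devT vs x Om τ v) ≤ (1 / (2 * lam)) * lam ^ 2 :=
    mul_le_mul_of_nonneg_left h2 (by positivity)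
  have h4 : (1 / (2 * lam)) * lam ^ 2 = lam / 2 := by field_simp
  linarith

/-- the value of a test -/
noncomputable def testT (vs : E → Finset V) (x : E → ℝ) (Om : Finset V) (τ : ℝ) (A : Finset E)
    (P : E → Finset V) (T : Finset V) : ℝ :=
  ∑ e ∈ A, if P e ⊆ T then xT vs x Om τ T e else 0

lemma le_ex_testT (hx : ∀ e, 0 ≤ x e) (hτ : 0 ≤ τ) (hτ1 : τ < 1) {A : Finset E}
    {P : E → Finset V} (hP : ∀ e ∈ A, P e ⊆ Om) (hP4 : ∀ e ∈ A, (P e).card ≤ 4)
    (hPd : ∀ e ∈ A, Disjoint (P e) (vs e)) :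
    τ ^ 4 * ∑ e ∈ A, x e ≤ ex (qT Om τ) (testT vs x Om τ A P) := by
  unfold testT
  rw [ex_sum, mul_sum]
  refine sum_le_sum fun e he => ?_
  have h1 : ∀ T : Finset V, (if P e ⊆ T then xT vs x Om τ T e else 0)
      = (x e * ((1 - τ)⁻¹) ^ ((vs e ∩ Om).card))
        * (if P e ⊆ T ∧ Disjoint T (vs e) then 1 else 0) := by
    intro T
    unfold xT
    by_cases h2 : P e ⊆ T <;> by_cases h3 : Disjoint T (vs e) <;> simp [h2, h3]
  simp_rw [h1]
  rw [ex_mul, ex_contain _ _ _ (hPd e he), prod_qT]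
  have h2 : ∏ v ∈ P e, (1 - qT Om τ v) = τ ^ ((P e).card) := by
    rw [← prod_const]
    refine prod_congr rfl fun v hv => ?_
    unfold qT
    rw [if_pos (hP e he hv)]
    ring
  rw [h2]
  have h3 : x e * ((1 - τ)⁻¹) ^ ((vs e ∩ Om).card) * (τ ^ ((P e).card) * (1 - τ) ^ ((vs e ∩ Om).card))
      = x e * τ ^ ((P e).card) * (((1 - τ)⁻¹) * (1 - τ)) ^ ((vs e ∩ Om).card) := by
    rw [mul_pow]; ring
  rw [h3, inv_mul_cancel₀ (by linarith), one_pow, mul_one, mul_comm]
  refine mul_le_mul_of_nonneg_left ?_ (hx e)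
  exact pow_le_pow_of_le_one hτ hτ1.le (hP4 e he)

lemma testT_diff (hx : ∀ e, 0 ≤ x e) (hτ : 0 ≤ τ) (hτ1 : τ < 1) (hr : ∀ e, (vs e).card ≤ r)
    {A : Finset E} {P : E → Finset V} (T : Finset V) (s : V) :
    |testT vs x Om τ A P (insert s T) - testT vs x Om τ A P (T.erase s)|
      ≤ ((1 - τ)⁻¹) ^ r * ((∑ e ∈ A.filter (fun e => s ∈ P e), x e) + deg vs x s) := by
  unfold testT
  rw [← sum_sub_distrib]
  refine (abs_sum_le_sum_abs _ _).trans ?_
  have h1 : ∀ e ∈ A, |(if P e ⊆ insert s T then xT vs x Om τ (insert s T) e else 0)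
      - (if P e ⊆ T.erase s then xT vs x Om τ (T.erase s) e else 0)|
      ≤ ((1 - τ)⁻¹) ^ r * ((if s ∈ P e then x e else 0) + (if s ∈ vs e then x e else 0)) := by
    intro e he
    have hn1 := xT_nonneg (vs := vs) (Om := Om) hτ1 hx (insert s T) e
    have hn2 := xT_nonneg (vs := vs) (Om := Om) hτ1 hx (T.erase s) e
    have hl1 := xT_le (vs := vs) (Om := Om) hτ hτ1 hx hr (insert s T) e
    have hl2 := xT_le (vs := vs) (Om := Om) hτ hτ1 hx hr (T.erase s) e
    have hxe := hx e
    have hc : 0 ≤ ((1 - τ)⁻¹) ^ r * x e := hn1.trans hl1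
    have hb : |(if P e ⊆ insert s T then xT vs x Om τ (insert s T) e else 0)
      - (if P e ⊆ T.erase s then xT vs x Om τ (T.erase s) e else 0)| ≤ ((1 - τ)⁻¹) ^ r * x e := by
      rw [abs_le]
      constructor <;> split_ifs <;> linarith
    by_cases h2 : s ∈ P e
    · rw [if_pos h2]
      refine hb.trans (mul_le_mul_of_nonneg_left ?_ ?_)
      · have : (0 : ℝ) ≤ if s ∈ vs e then x e else 0 := by split_ifs; exacts [hxe, le_rfl]
        linarith
      · have := one_le_inv_one_sub hτ hτ1; positivity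
    · by_cases h3 : s ∈ vs e
      · rw [if_pos h3]
        refine hb.trans (mul_le_mul_of_nonneg_left ?_ ?_)
        · rw [if_neg h2]
          linarith
        · have := one_le_inv_one_sub hτ hτ1; positivity
      · have h4 : (P e ⊆ insert s T) ↔ (P e ⊆ T.erase s) := by
          constructor
          · intro h v hv
            have hvs : v ≠ s := fun h5 => h2 (h5 ▸ hv)
            exact mem_erase.2 ⟨hvs, (mem_insert.1 (h hv)).resolve_left hvs⟩
          · intro h v hv
            exact mem_insert_of_mem (mem_of_mem_erase (h hv))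
        have h5 : xT vs x Om τ (insert s T) e = xT vs x Om τ (T.erase s) e := by
          unfold xT
          have : Disjoint (insert s T) (vs e) ↔ Disjoint (T.erase s) (vs e) := by
            rw [disjoint_insert_left]
            constructor
            · rintro ⟨_, h⟩
              exact h.mono_left (erase_subset _ _)
            · intro h
              refine ⟨h3, ?_⟩
              rw [Finset.disjoint_left] at h ⊢
              intro v hv hve
              have hvs : v ≠ s := fun h5 => h3 (h5 ▸ hve)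
              exact h (mem_erase.2 ⟨hvs, hv⟩) hve
          simp only [this]
        simp only [h4, h5, h2, h3, sub_self, abs_zero, if_false, add_zero, mul_zero, le_refl]
  refine (sum_le_sum h1).trans ?_
  rw [← mul_sum, sum_add_distrib, sum_filter]
  have hc : 0 ≤ ((1 - τ)⁻¹) ^ r := by have := one_le_inv_one_sub hτ hτ1; positivity
  refine mul_le_mul_of_nonneg_left (add_le_add le_rfl ?_) hc
  unfold deg
  exact sum_le_sum_of_subset_of_nonneg (subset_univ A) fun e _ _ => by
    split_ifs; exacts [hx e, le_rfl]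

end StepT

end Pool.Agent.AMB
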