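import Pool.Agent.AMB.StepTa

/-!
# The choice of the reserved set, additive form
-/

set_option autoImplicit false
set_option linter.unusedSectionVars false
set_option linter.unusedVariables false

namespace Pool.Agent.AMB

open Finset Pool.Agent.MP9a04dc

/-- Data of the additive machine.  `Om` = the sums, `A j`, `P j` = the tests. -/
structure AMPlus {E V J : Type} [Fintype E] [DecidableEq E] [Fintype V] [DecidableEq V]
    (vs : E → Finset V) (x : E → ℝ) (Om : Finset V) (A : J → Finset E) (P : J → E → Finset V)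
    (r : ℕ) (C γ κ : ℝ) : Prop where
  good : Good vs x κ r
  slack : ∀ s ∈ Om, deg vs x s ≤ 1 - γ
  P_sub : ∀ j, ∀ e ∈ A j, P j e ⊆ Om
  P_card : ∀ j, ∀ e ∈ A j, (P j e).card ≤ 4
  P_disj : ∀ j, ∀ e ∈ A j, Disjoint (P j e) (vs e)
  P_codeg : ∀ j s, ∑ e ∈ (A j).filter (fun e => s ∈ P j e), x e ≤ C

section

variable {E V : Type*} [Fintype E] [DecidableEq E] [Fintype V] [DecidableEq V]
variable {vs : E → Finset V}

lemma sum_le_sum_deg (hne : ∀ e, (vs e).Nonempty) {y : E → ℝ} (hy : ∀ e, 0 ≤ y e) :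
    ∑ e, y e ≤ ∑ v, deg vs y v := by
  rw [sum_deg]
  refine sum_le_sum fun e _ => ?_
  have h1 : 1 ≤ (vs e ∩ univ).card := by rw [inter_univ]; exact card_pos.2 (hne e)
  have h2 : (1 : ℝ) ≤ ((vs e ∩ univ).card : ℝ) := by exact_mod_cast h1
  have := hy e
  nlinarith

lemma sum_sub_loss_le_card (hne : ∀ e, (vs e).Nonempty) {y : E → ℝ} (hy : ∀ e, 0 ≤ y e) :
    ∑ e, y e - ∑ v, max 0 (deg vs y v - 1) ≤ (Fintype.card V : ℝ) := by
  have h1 := sum_le_sum_deg hne hy
  have h2 : ∑ v, deg vs y v - ∑ v, max 0 (deg vs y v - 1) ≤ ∑ v : V, (1 : ℝ) := by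
    rw [← sum_sub_distrib]
    refine sum_le_sum fun Q _ => ?_
    have := le_max_right 0 (deg vs y Q - 1)
    linarith
  rw [sum_const, nsmul_eq_mul, mul_one, card_univ] at h2
  linarith

end

/-- **Step T, additive form**: a reserved set `T` of sums. -/
theorem stepT' (r : ℕ) {C γ : ℝ} (hC : 0 < C) (hγ : 0 < γ) :
    ∃ Ct : ℝ, 1 ≤ Ct ∧ ∀ d : ℝ, 0 < d → ∃ κ₀ : ℝ, 0 < κ₀ ∧ ∃ c : ℝ, 0 < c ∧ ∃ n₀ : ℕ,
      ∀ (E V J : Type) [Fintype E] [DecidableEq E] [Fintype V] [DecidableEq V] [Fintype J]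
        (vs : E → Finset V) (x : E → ℝ) (Om : Finset V) (A : J → Finset E)
        (P : J → E → Finset V) (κ : ℝ), 0 ≤ κ → κ ≤ κ₀ →
        AMPlus vs x Om A P r C γ κ →
        (Fintype.card J : ℝ) ≤ Real.exp (c * Fintype.card V) → n₀ ≤ Fintype.card V →
        ∃ T ⊆ Om, ∃ z : E → ℝ, Good vs z (Ct * κ) r ∧ (∀ e, z e ≤ Ct * x e) ∧
          (∀ e, z e ≠ 0 → Disjoint (vs e) T) ∧
          ∑ e, x e - d * (Fintype.card V : ℝ) ≤ ∑ e, z e ∧
          ∀ j, (min γ (1 / 2)) ^ 4 * (∑ e ∈ A j, x e) - d * (Fintype.card V : ℝ)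
            ≤ ∑ e ∈ (A j).filter (fun e => P j e ⊆ T), z e := by
  set τ : ℝ := min γ (1 / 2) with hτdef
  have hτ0 : 0 < τ := lt_min hγ (by norm_num)
  have hτγ : τ ≤ γ := min_le_left _ _
  have hτh : τ ≤ 1 / 2 := min_le_right _ _
  have hτ1 : τ < 1 := by linarith
  set Ct : ℝ := ((1 - τ)⁻¹) ^ r with hCt
  have hCt1 : 1 ≤ Ct := one_le_pow₀ (one_le_inv_one_sub hτ0.le hτ1)
  have hCt0 : 0 < Ct := by linarith
  refine ⟨Ct, hCt1, ?_⟩
  intro d hd
  set ε : ℝ := min d (1 / 2) with hε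
  have hε0 : 0 < ε := lt_min hd (by norm_num)
  have hεd : ε ≤ d := min_le_left _ _
  have hεh : ε ≤ 1 / 2 := min_le_right _ _
  set δ : ℝ := ε / 4 with hδ
  have hδ0 : 0 < δ := by positivity
  set lam : ℝ := min (ε / 4) (ε * δ / 4) with hlam
  have hlam0 : 0 < lam := lt_min (by positivity) (by positivity)
  have hlam1 : lam ≤ ε / 4 := min_le_left _ _
  have hlam2 : lam ≤ ε * δ / 4 := min_le_right _ _
  set κ₀ : ℝ := lam ^ 2 / (Ct * (r + 1)) with hκ₀
  have hκ₀0 : 0 < κ₀ := by positivity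
  set W0 : ℝ := Ct ^ 2 * (C + 1) * (4 + r) with hW0
  have hW00 : 0 < W0 := by positivity
  set mu : ℝ := min (1 / (Ct * (C + 1))) (ε / (4 * W0)) with hmu
  have hmu0 : 0 < mu := lt_min (by positivity) (by positivity)
  have hmu1 : mu * (Ct * (C + 1)) ≤ 1 := by
    have : mu ≤ 1 / (Ct * (C + 1)) := min_le_left _ _
    calc mu * (Ct * (C + 1)) ≤ 1 / (Ct * (C + 1)) * (Ct * (C + 1)) :=
          mul_le_mul_of_nonneg_right this (by positivity)
      _ = 1 := by field_simp
  have hmu2 : mu * W0 ≤ ε / 4 := by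
    have : mu ≤ ε / (4 * W0) := min_le_right _ _
    calc mu * W0 ≤ ε / (4 * W0) * W0 := mul_le_mul_of_nonneg_right this hW00.le
      _ = ε / 4 := by field_simp
  set c' : ℝ := mu * ε / 4 with hc'
  have hc'0 : 0 < c' := by positivity
  obtain ⟨n₀, hn₀⟩ := exists_nat_gt (16 / (ε * c'))
  refine ⟨κ₀, hκ₀0, c' / 2, by positivity, n₀, ?_⟩
  intro E V J _ _ _ _ _ vs x Om A P κ hκ hκκ₀ hdat hJ hn
  have hx := hdat.good.nonneg
  set n : ℝ := (Fintype.card V : ℝ) with hndef
  have hn₁ : 16 / (ε * c') < n := by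
    have : (n₀ : ℝ) ≤ n := by rw [hndef]; exact_mod_cast hn
    exact hn₀.trans_le this
  have hnpos : 0 < n := lt_trans (by positivity) hn₁
  have hq0 : ∀ v, 0 ≤ qT Om τ v := qT_nonneg hτ1
  have hq1 : ∀ v, qT Om τ v ≤ 1 := qT_le_one hτ0.le
  have hdegq : ∀ v, deg vs x v ≤ qT Om τ v := by
    intro v
    unfold qT
    split_ifs with hv
    · have := hdat.slack v hv
      linarith
    · exact hdat.good.deg_le v
  have hl : ((1 - τ)⁻¹) ^ r * (r * κ) ≤ lam ^ 2 := by
    rw [← hCt]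
    have h1 : (r : ℝ) * κ ≤ (r + 1) * κ₀ := by
      have : (0 : ℝ) ≤ r := by positivity
      nlinarith
    calc Ct * (r * κ) ≤ Ct * ((r + 1) * κ₀) := mul_le_mul_of_nonneg_left h1 hCt0.le
      _ = lam ^ 2 := by rw [hκ₀]; field_simp
  -- the loss
  set L : Finset V → ℝ := fun T => ∑ v, max 0 (deg vs (xT vs x Om τ T) v - 1) with hL
  have hL0 : ∀ T, 0 ≤ L T := fun T => sum_nonneg fun v _ => le_max_left _ _
  have hEL : ex (qT Om τ) L ≤ lam * n := by
    rw [hL, ex_sum]
    calc ∑ v, ex (qT Om τ) (fun T => max 0 (deg vs (xT vs x Om τ T) v - 1)) ≤ ∑ v : V, lam :=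
          sum_le_sum fun v _ => ex_maxT_le hdat.good hκ hτ0.le hτ1 v (hdegq v) hlam0 hl
      _ = lam * n := by simp [mul_comm, hndef]
  -- the tests
  have hsumx : ∑ e, x e ≤ n := by
    refine (sum_le_sum_deg hdat.good.nonempty hx).trans ?_
    calc ∑ v, deg vs x v ≤ ∑ v : V, (1 : ℝ) := sum_le_sum fun v _ => hdat.good.deg_le v
      _ = n := by simp [hndef]
  have hsumx0 : 0 ≤ ∑ e, x e := sum_nonneg fun e _ => hx e
  set F : J → Finset V → ℝ := fun j => testT vs x Om τ (A j) (P j) with hF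
  set m : J → ℝ := fun j => τ ^ 4 * ∑ e ∈ A j, x e with hm
  have hEF : ∀ j, m j ≤ ex (qT Om τ) (F j) := fun j =>
    le_ex_testT hx hτ0.le hτ1 (hdat.P_sub j) (hdat.P_card j) (hdat.P_disj j)
  have hfail : ∀ j, ex (qT Om τ) (fun T => if F j T ≤ m j - ε * n / 2 then 1 else 0)
      ≤ Real.exp (-(c' * n)) := by
    intro j
    set cc : V → ℝ := fun s => Ct * ((∑ e ∈ (A j).filter (fun e => s ∈ P j e), x e) + deg vs x s)
      with hcc
    have hcc0 : ∀ s, 0 ≤ (∑ e ∈ (A j).filter (fun e => s ∈ P j e), x e) + deg vs x s := fun s =>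
      add_nonneg (sum_nonneg fun e _ => hx e) (deg_nonneg hx s)
    have hcc1 : ∀ s, cc s ≤ Ct * (C + 1) := fun s =>
      mul_le_mul_of_nonneg_left (add_le_add (hdat.P_codeg j s) (hdat.good.deg_le s)) hCt0.le
    have hsumcc : ∑ s, ((∑ e ∈ (A j).filter (fun e => s ∈ P j e), x e) + deg vs x s)
        ≤ (4 + r) * n := by
      rw [sum_add_distrib]
      have h1 : ∑ s, ∑ e ∈ (A j).filter (fun e => s ∈ P j e), x e ≤ 4 * n := by
        have : ∑ s, ∑ e ∈ (A j).filter (fun e => s ∈ P j e), x e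
            = ∑ e ∈ A j, ((P j e).card : ℝ) * x e := by
          simp_rw [sum_filter]
          rw [sum_comm]
          refine sum_congr rfl fun e _ => ?_
          rw [← sum_filter, sum_const, nsmul_eq_mul]
          congr 2
          congr 1
          ext s; simp
        rw [this]
        calc ∑ e ∈ A j, ((P j e).card : ℝ) * x e ≤ ∑ e ∈ A j, 4 * x e :=
              sum_le_sum fun e he => mul_le_mul_of_nonneg_right
                (by exact_mod_cast hdat.P_card j e he) (hx e)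
          _ ≤ ∑ e, 4 * x e := sum_le_sum_of_subset_of_nonneg (subset_univ _)
                fun e _ _ => mul_nonneg (by norm_num) (hx e)
          _ = 4 * ∑ e, x e := by rw [mul_sum]
          _ ≤ 4 * n := by linarith
      have h2 : ∑ s, deg vs x s ≤ r * n := by
        have : ∑ s, deg vs x s = ∑ e, ((vs e).card : ℝ) * x e := by
          rw [sum_deg]
          exact sum_congr rfl fun e _ => by rw [inter_univ]
        rw [this]
        calc ∑ e, ((vs e).card : ℝ) * x e ≤ ∑ e, (r : ℝ) * x e :=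
              sum_le_sum fun e _ => mul_le_mul_of_nonneg_right
                (by exact_mod_cast hdat.good.card_le e) (hx e)
          _ = r * ∑ e, x e := by rw [mul_sum]
          _ ≤ r * n := mul_le_mul_of_nonneg_left hsumx (by positivity)
      linarith
    have hW : ∑ s, (1 - qT Om τ s) * cc s ^ 2 ≤ W0 * n := by
      have h1 : ∀ s, (1 - qT Om τ s) * cc s ^ 2 ≤ Ct ^ 2 * (C + 1) *
          ((∑ e ∈ (A j).filter (fun e => s ∈ P j e), x e) + deg vs x s) := by
        intro s
        have h2 : (1 - qT Om τ s) * cc s ^ 2 ≤ 1 * cc s ^ 2 :=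
          mul_le_mul_of_nonneg_right (by linarith [hq0 s]) (sq_nonneg _)
        have h3 : cc s ^ 2 ≤ Ct * (C + 1) * cc s := by
          rw [sq]
          exact mul_le_mul_of_nonneg_right (hcc1 s) (mul_nonneg hCt0.le (hcc0 s))
        have h4 : Ct * (C + 1) * cc s = Ct ^ 2 * (C + 1) *
          ((∑ e ∈ (A j).filter (fun e => s ∈ P j e), x e) + deg vs x s) := by
          rw [hcc]; ring
        linarith
      refine (sum_le_sum fun s _ => h1 s).trans ?_
      rw [← mul_sum, hW0, mul_assoc (Ct ^ 2 * (C + 1))]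
      exact mul_le_mul_of_nonneg_left hsumcc (by positivity)
    have h5 := lower_tail hq0 hq1 (c := cc) hmu0.le
      (fun s => (mul_le_mul_of_nonneg_left (hcc1 s) hmu0.le).trans hmu1) (F j)
      (fun T s => testT_diff hx hτ0.le hτ1 hdat.good.card_le T s) hW (m j) (ε * n / 2) (hEF j)
    refine h5.trans (Real.exp_le_exp.2 ?_)
    have h6 : mu ^ 2 * (W0 * n) ≤ mu * (ε / 4) * n := by
      have : mu ^ 2 * (W0 * n) = mu * (mu * W0) * n := by ring
      rw [this]
      exact mul_le_mul_of_nonneg_right (mul_le_mul_of_nonneg_left hmu2 hmu0.le) hnpos.le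
    have h7 : c' * n = mu * ε * n / 4 := by rw [hc']; ring
    have h8 : mu * (ε / 4) * n = mu * ε * n / 4 := by ring
    have h9 : mu * (ε * n / 2) = 2 * (mu * ε * n / 4) := by ring
    rw [h7, h9]
    rw [h8] at h6
    linarith
  -- the objective
  set H : Finset V → ℝ := fun T => ((∑ e, xT vs x Om τ T e) - (1 + 1 / δ) * L T)
    - (2 * n) * ∑ j, (if F j T ≤ m j - ε * n / 2 then 1 else 0) with hH
  have hEH : ∑ e, x e - ε * n ≤ ex (qT Om τ) H := by
    have h1 : ex (qT Om τ) (fun T => ∑ e, xT vs x Om τ T e) = ∑ e, x e := by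
      rw [ex_sum]
      exact sum_congr rfl fun e _ => ex_xT hτ1 e
    have h1' : ex (qT Om τ) (fun T => ∑ j, if F j T ≤ m j - ε * n / 2 then (1 : ℝ) else 0)
      = ∑ j, ex (qT Om τ) (fun T => if F j T ≤ m j - ε * n / 2 then (1 : ℝ) else 0) :=
      ex_sum _ _ _
    rw [hH, ex_sub, ex_sub, ex_mul, ex_mul, h1, h1']
    have h3 : (1 + 1 / δ) * ex (qT Om τ) L ≤ (1 + 1 / δ) * (lam * n) :=
      mul_le_mul_of_nonneg_left hEL (by positivity)
    have h4 : (1 + 1 / δ) * (lam * n) ≤ ε / 2 * n := by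
      have h5 : (1 + 1 / δ) * (lam * n) = lam * n + lam / δ * n := by ring
      rw [h5]
      have h6 : lam / δ ≤ ε / 4 := by
        rw [div_le_iff₀ hδ0]
        linarith
      have h7 := mul_le_mul_of_nonneg_right h6 hnpos.le
      have h8 := mul_le_mul_of_nonneg_right hlam1 hnpos.le
      linarith
    have h9 : ∑ j, ex (qT Om τ) (fun T => if F j T ≤ m j - ε * n / 2 then (1 : ℝ) else 0)
        ≤ ε / 8 := by
      calc _ ≤ ∑ j : J, Real.exp (-(c' * n)) := sum_le_sum fun j _ => hfail j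
        _ = Fintype.card J * Real.exp (-(c' * n)) := by simp
        _ ≤ Real.exp (c' / 2 * n) * Real.exp (-(c' * n)) :=
            mul_le_mul_of_nonneg_right hJ (Real.exp_pos _).le
        _ = Real.exp (-(c' / 2 * n)) := by rw [← Real.exp_add]; congr 1; ring
        _ ≤ ε / 8 := by
            have h10 : 8 / ε ≤ c' / 2 * n := by
              have h11 : 16 / (ε * c') * (c' / 2) ≤ n * (c' / 2) :=
                mul_le_mul_of_nonneg_right hn₁.le (by positivity)
              have h12 : 16 / (ε * c') * (c' / 2) = 8 / ε := by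
                field_simp
                norm_num
              rw [h12] at h11
              linarith
            have h13 := Real.add_one_le_exp (c' / 2 * n)
            have h14 : 8 / ε ≤ Real.exp (c' / 2 * n) := by linarith
            rw [Real.exp_neg]
            have h15 : (Real.exp (c' / 2 * n))⁻¹ ≤ (8 / ε)⁻¹ := inv_anti₀ (by positivity) h14
            rw [inv_div] at h15
            exact h15
    have h16 : (2 * n) * ∑ j, ex (qT Om τ)
        (fun T => if F j T ≤ m j - ε * n / 2 then (1 : ℝ) else 0)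
        ≤ (2 * n) * (ε / 8) := mul_le_mul_of_nonneg_left h9 (by positivity)
    have h17 : ∑ e, x e - ε * n ≤ ∑ e, x e - ε / 2 * n - (2 * n) * (ε / 8) := by
      have : 0 ≤ ε * n := by positivity
      linarith
    exact h17.trans (sub_le_sub (sub_le_sub le_rfl (h3.trans h4)) h16)
  obtain ⟨T, hTpos, hT⟩ := exists_ge_ex_supp hq0 hq1 H
  have hHT : ∑ e, x e - ε * n ≤ H T := hEH.trans hT
  have hTOm : T ⊆ Om := by
    intro v hv
    have := wt_pos_mem hTpos hv
    by_contra hcon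
    apply this
    unfold qT
    rw [if_neg hcon]
  have hnn := xT_nonneg (vs := vs) (Om := Om) hτ1 hx T
  have hAT : (∑ e, xT vs x Om τ T e) - L T ≤ n := sum_sub_loss_le_card hdat.good.nonempty hnn
  have hLT := hL0 T
  have hfl0 : ∀ j, (0 : ℝ) ≤ (if F j T ≤ m j - ε * n / 2 then 1 else 0) := fun j => by
    split_ifs <;> norm_num
  have hfl : 0 ≤ ∑ j, (if F j T ≤ m j - ε * n / 2 then (1 : ℝ) else 0) :=
    sum_nonneg fun j _ => hfl0 j
  have hHdef : H T = ((∑ e, xT vs x Om τ T e) - (1 + 1 / δ) * L T)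
    - (2 * n) * ∑ j, (if F j T ≤ m j - ε * n / 2 then 1 else 0) := rfl
  have hsplit : (1 + 1 / δ) * L T = L T + 1 / δ * L T := by ring
  have hLδ : 0 ≤ 1 / δ * L T := by positivity
  have hεn : ε * n ≤ 1 * n := mul_le_mul_of_nonneg_right (by linarith) hnpos.le
  rw [hHdef, hsplit] at hHT
  -- no test fails
  have hnofail : ∀ j, m j - ε * n / 2 < F j T := by
    intro j
    by_contra hcon
    push Not at hcon
    have h1 : (1 : ℝ) ≤ ∑ j, (if F j T ≤ m j - ε * n / 2 then (1 : ℝ) else 0) := by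
      have h2 := single_le_sum (f := fun j => if F j T ≤ m j - ε * n / 2 then (1 : ℝ) else 0)
        (fun j _ => hfl0 j) (mem_univ j)
      simp only [hcon, if_true] at h2
      exact h2
    have h4 := mul_le_mul_of_nonneg_left h1 (by positivity : 0 ≤ 2 * n)
    have h5 : ε * n ≤ 1 / 2 * n := mul_le_mul_of_nonneg_right hεh hnpos.le
    linarith
  have h4 := mul_nonneg (by positivity : 0 ≤ 2 * n) hfl
  have hLsmall : L T ≤ ε * n / 2 := by
    have h1 : 1 / δ * L T ≤ 2 * n := by linarith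
    have h2 : L T = δ * (1 / δ * L T) := by field_simp
    rw [h2]
    calc δ * (1 / δ * L T) ≤ δ * (2 * n) := mul_le_mul_of_nonneg_left h1 hδ0.le
      _ = ε * n / 2 := by rw [hδ]; ring
  have hdn : ε * n ≤ d * n := mul_le_mul_of_nonneg_right hεd hnpos.le
  have hloss := sum_sub_trunc_le (vs := vs) hnn
  have h5 : L T = ∑ v, max 0 (deg vs (xT vs x Om τ T) v - 1) := rfl
  refine ⟨T, hTOm, trunc vs (xT vs x Om τ T), ?_, ?_, ?_, ?_, ?_⟩
  · refine ⟨trunc_nonneg hnn, deg_trunc_le_one hnn, ?_, hdat.good.card_le, hdat.good.nonempty⟩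
    intro u v huv
    have h1 : ∀ e, trunc vs (xT vs x Om τ T) e ≤ Ct * x e := fun e =>
      (trunc_le hnn e).trans (xT_le hτ0.le hτ1 hx hdat.good.card_le T e)
    refine (codeg_mono h1 u v).trans ?_
    have h5 : codeg vs (fun e => Ct * x e) u v = Ct * codeg vs x u v := by
      unfold codeg
      rw [mul_sum]
      exact sum_congr rfl fun e _ => by split_ifs <;> simp
    rw [h5]
    exact mul_le_mul_of_nonneg_left (hdat.good.codeg_le u v huv) hCt0.le
  · intro e
    exact (trunc_le hnn e).trans (xT_le hτ0.le hτ1 hx hdat.good.card_le T e)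
  · intro e he
    by_contra hcon
    apply he
    unfold trunc xT
    rw [if_neg (fun h => hcon h.symm)]
    simp
  · rw [sum_sub_distrib] at hloss
    linarith
  · intro j
    have h2 : ∑ e ∈ (A j).filter (fun e => P j e ⊆ T),
        (xT vs x Om τ T e - trunc vs (xT vs x Om τ T) e)
        ≤ ∑ e, (xT vs x Om τ T e - trunc vs (xT vs x Om τ T) e) :=
      sum_le_sum_of_subset_of_nonneg (subset_univ _) fun e _ _ => sub_nonneg.2 (trunc_le hnn e)
    rw [sum_sub_distrib] at h2
    have h3 : F j T = ∑ e ∈ (A j).filter (fun e => P j e ⊆ T), xT vs x Om τ T e := by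
      rw [sum_filter]; rfl
    have h6 := hnofail j
    rw [h3] at h6
    have h7 : m j = τ ^ 4 * ∑ e ∈ A j, x e := rfl
    rw [← h7]
    linarith

end Pool.Agent.AMB
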