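import Pool.Agent.MP9a04dc.Step2

/-!
# Truncation of a weight, and small additions to `ex`
-/

set_option autoImplicit false
set_option linter.unusedSectionVars false
set_option linter.unusedVariables false

namespace Pool.Agent.AMB

open Finset Pool.Agent.MP9a04dc

section Trunc

variable {E V : Type*} [Fintype E] [DecidableEq E] [DecidableEq V]

/-- truncated weight: all degrees become at most one -/
noncomputable def trunc (vs : E → Finset V) (x : E → ℝ) (e : E) : ℝ :=
  x e * ∏ v ∈ vs e, (max 1 (deg vs x v))⁻¹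

variable {vs : E → Finset V} {x : E → ℝ}

lemma trunc_nonneg (hx : ∀ e, 0 ≤ x e) (e : E) : 0 ≤ trunc vs x e :=
  mul_nonneg (hx e) (prod_nonneg fun v _ => inv_max_nonneg _)

lemma trunc_le (hx : ∀ e, 0 ≤ x e) (e : E) : trunc vs x e ≤ x e :=
  mul_le_of_le_one_right (hx e)
    (prod_le_one (fun v _ => inv_max_nonneg _) (fun v _ => inv_max_le_one _))

lemma deg_trunc_le_one (hx : ∀ e, 0 ≤ x e) (v : V) : deg vs (trunc vs x) v ≤ 1 := by
  set D := deg vs x v with hD
  have h1 : deg vs (trunc vs x) v ≤ D * (max 1 D)⁻¹ := by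
    rw [hD]
    conv_rhs => rw [deg, sum_mul]
    unfold deg
    refine sum_le_sum fun e _ => ?_
    by_cases hv : v ∈ vs e
    · rw [if_pos hv, if_pos hv]
      unfold trunc
      refine mul_le_mul_of_nonneg_left ?_ (hx e)
      rw [← mul_prod_erase _ _ hv]
      exact mul_le_of_le_one_right (inv_max_nonneg _)
        (prod_le_one (fun v _ => inv_max_nonneg _) (fun v _ => inv_max_le_one _))
    · simp [hv]
  have h2 : D * (max 1 D)⁻¹ ≤ 1 := by
    rw [← div_eq_mul_inv, div_le_one (lt_max_of_lt_left zero_lt_one)]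
    exact le_max_right _ _
  exact h1.trans h2

lemma sum_sub_trunc_le [Fintype V] (hx : ∀ e, 0 ≤ x e) :
    ∑ e, (x e - trunc vs x e) ≤ ∑ v, max 0 (deg vs x v - 1) := by
  have h1 : ∀ e, x e - trunc vs x e
      ≤ ∑ v, (if v ∈ vs e then x e else 0) * (1 - (max 1 (deg vs x v))⁻¹) := by
    intro e
    have h2 := one_sub_prod_le (vs e) (fun v => (max 1 (deg vs x v))⁻¹)
      (fun v _ => inv_max_nonneg _) (fun v _ => inv_max_le_one _)
    have h3 := mul_le_mul_of_nonneg_left h2 (hx e)
    have h4 : ∑ v, (if v ∈ vs e then x e else 0) * (1 - (max 1 (deg vs x v))⁻¹)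
        = x e * ∑ v ∈ vs e, (1 - (max 1 (deg vs x v))⁻¹) := by
      rw [mul_sum, ← Finset.sum_subset (subset_univ (vs e))]
      · exact sum_congr rfl fun v hv => by rw [if_pos hv]
      · intro v _ hv
        rw [if_neg hv, zero_mul]
    rw [h4]
    unfold trunc
    linarith
  refine (sum_le_sum fun e _ => h1 e).trans ?_
  rw [sum_comm]
  refine sum_le_sum fun v _ => ?_
  rw [← sum_mul]
  change deg vs x v * (1 - (max 1 (deg vs x v))⁻¹) ≤ _
  set D := deg vs x v
  rcases le_total D 1 with h | h
  · rw [max_eq_left h]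
    simp
  · rw [max_eq_right h, mul_sub, mul_inv_cancel₀ (by linarith)]
    rw [mul_one]
    exact le_max_right _ _

end Trunc

section Ex

variable {E : Type*} [Fintype E] [DecidableEq E]

/-- a subset of positive weight where the function is at least its expectation -/
lemma exists_ge_ex_supp {q : E → ℝ} (h0 : ∀ e, 0 ≤ q e) (h1 : ∀ e, q e ≤ 1)
    (F : Finset E → ℝ) : ∃ R, 0 < wt q R ∧ ex q F ≤ F R := by
  by_contra hcon
  push Not at hcon
  have h2 : ∃ R : Finset E, 0 < wt q R := by
    by_contra h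
    push Not at h
    have := sum_wt q
    have h3 : ∑ R : Finset E, wt q R ≤ 0 := sum_nonpos fun R _ => h R
    linarith
  obtain ⟨R₀, hR₀⟩ := h2
  have : ex q F < ex q F := by
    calc ex q F = ∑ R : Finset E, wt q R * F R := rfl
      _ < ∑ R : Finset E, wt q R * ex q F := by
          refine sum_lt_sum (fun R _ => ?_) ⟨R₀, mem_univ _, ?_⟩
          · rcases (wt_nonneg h0 h1 R).lt_or_eq with h | h
            · exact mul_le_mul_of_nonneg_left (hcon R h).le h.le
            · rw [← h]; simp
          · exact mul_lt_mul_of_pos_left (hcon R₀ hR₀) hR₀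
      _ = ex q F := by rw [← sum_mul, sum_wt, one_mul]
  exact lt_irrefl _ this

lemma wt_pos_mem {q : E → ℝ} {R : Finset E} (h : 0 < wt q R) {e : E} (he : e ∈ R) :
    q e ≠ 1 := by
  intro hq
  unfold wt at h
  rw [prod_eq_zero he (by rw [hq]; ring), zero_mul] at h
  exact lt_irrefl _ h

/-- The probability that `P` is chosen and `K` is avoided. -/
lemma ex_contain (q : E → ℝ) (P K : Finset E) (hPK : Disjoint P K) :
    ex q (fun R => if P ⊆ R ∧ Disjoint R K then 1 else 0)
      = (∏ e ∈ P, (1 - q e)) * ∏ e ∈ K, q e := by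
  have h : ∀ R : Finset E, wt q R * (if P ⊆ R ∧ Disjoint R K then (1 : ℝ) else 0)
      = (∏ e ∈ R, (if e ∈ K then 0 else 1 - q e)) * ∏ e ∈ univ \ R, (if e ∈ P then 0 else q e) := by
    intro R
    by_cases hR : P ⊆ R ∧ Disjoint R K
    · rw [if_pos hR, mul_one, wt]
      congr 1
      · refine prod_congr rfl fun e he => ?_
        rw [if_neg (Finset.disjoint_left.1 hR.2 he)]
      · refine prod_congr rfl fun e he => ?_
        rw [if_neg (fun h => (mem_sdiff.1 he).2 (hR.1 h))]
    · rw [if_neg hR, mul_zero]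
      by_cases h1 : P ⊆ R
      · have h2 : ¬ Disjoint R K := fun h => hR ⟨h1, h⟩
        obtain ⟨e, he, heK⟩ := Finset.not_disjoint_iff.1 h2
        rw [prod_eq_zero he (by simp [heK]), zero_mul]
      · obtain ⟨e, heP, heR⟩ := Finset.not_subset.1 h1
        rw [prod_eq_zero (i := e) (s := univ \ R) (by simp [heR]) (by simp [heP]), mul_zero]
  unfold ex
  simp_rw [h]
  rw [sum_prod_mul_prod]
  have h2 : ∀ e : E, ((if e ∈ K then 0 else 1 - q e) + (if e ∈ P then 0 else q e))
      = (if e ∈ P then 1 - q e else 1) * (if e ∈ K then q e else 1) := by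
    intro e
    by_cases h1 : e ∈ P
    · have h3 : e ∉ K := Finset.disjoint_left.1 hPK h1
      simp [h1, h3]
    · by_cases h3 : e ∈ K <;> simp [h1, h3]
  simp_rw [h2]
  rw [prod_mul_distrib]
  congr 1
  · rw [← Finset.prod_subset (subset_univ P)]
    · exact prod_congr rfl fun e he => by simp [he]
    · intro e _ he
      simp [he]
  · rw [← Finset.prod_subset (subset_univ K)]
    · exact prod_congr rfl fun e he => by simp [he]
    · intro e _ he
      simp [he]

end Ex

end Pool.Agent.AMB
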